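import Pool.Agent.Helper19.RU.Asm
import Pool.Agent.Helper19.RU.StepF
import Pool.Agent.Helper633.GoalOfStep
import Pool.Agent.HpBall.Transfer

set_option autoImplicit false

open MeasureTheory Complex
open scoped ENNReal NNReal

namespace Pool.Agent.H383R3.BallFac

open Pool.Agent.HpBall Pool.Agent.Helper19.RU

theorem goal (n : ℕ) (hn : 1 < n) : Goal n := by
  obtain ⟨al, Nc, C, hal, hstep⟩ := step_of_EBlock n hn.le hn (eblock n hn.le hn)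
  exact Pool.Agent.Helper633.Lim.goal_of_step n al Nc C hn hal (repro n al hn.le hal) hstep

/-- the radial mass -/
noncomputable def RM (n : ℕ) : ℝ≥0∞ :=
  ∫⁻ x in Set.Ioi (0 : ℝ), ENNReal.ofReal (Real.exp (-(2 * n * x)))

lemma RM_ne_top (n : ℕ) (hn : 1 ≤ n) : RM n ≠ ⊤ := by
  unfold RM
  have h : Integrable (fun x : ℝ => Real.exp (-(2 * n * x))) (volume.restrict (Set.Ioi 0)) := by
    have hn' : (0 : ℝ) < 2 * n := by
      have : (1 : ℝ) ≤ n := by exact_mod_cast hn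
      linarith
    have := exp_neg_integrableOn_Ioi 0 (b := 2 * n) hn'
    refine this.congr (Filter.Eventually.of_forall fun x => ?_)
    simp
  exact (h.lintegral_lt_top).ne

lemma RM_ne_zero (n : ℕ) : RM n ≠ 0 := by
  unfold RM
  have hm : Measurable (fun x : ℝ => ENNReal.ofReal (Real.exp (-(2 * n * x)))) := by fun_prop
  refine ((setLIntegral_pos_iff hm).2 ?_).ne'
  have : Function.support (fun x : ℝ => ENNReal.ofReal (Real.exp (-(2 * n * x)))) = Set.univ := by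
    ext x
    simp [Real.exp_pos]
  rw [this, Set.univ_inter]
  simp

/-- the means on the ball are multiples of the spherical means -/
theorem mean_eq (n : ℕ) (hn : 1 ≤ n) : ∃ c : ℝ≥0, 0 < c ∧
    ∀ g : E n → ℝ≥0∞, Measurable g → ∀ r : ℝ, 0 < r →
      (∫⁻ z in {z : Fin n → ℂ | ∑ i, ‖z i‖ ^ 2 < 1},
        g (WithLp.toLp 2 ((r / Real.sqrt (∑ i, ‖z i‖ ^ 2)) • z))) =
      c * ∫⁻ ζ, g ((r : ℂ) • (ζ : E n)) ∂(sg n) := by
  obtain ⟨a, ha0, ha⟩ : ∃ a : ℝ≥0, a ≠ 0 ∧ vol n = a • (volume : Measure (E n)) := by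
    refine ⟨Measure.addHaarScalarFactor (vol n) volume, ?_, ?_⟩
    · exact (Measure.addHaarScalarFactor_pos_of_isAddHaarMeasure (vol n) volume).ne'
    · exact Measure.isAddLeftInvariant_eq_smul (vol n) (volume : Measure (E n))
  have hR := RM_ne_top n hn
  have hR0 := RM_ne_zero n
  refine ⟨a * (RM n).toNNReal, ?_, ?_⟩
  · have h1 : 0 < (RM n).toNNReal := ENNReal.toNNReal_pos hR0 hR
    have h2 : 0 < a := pos_iff_ne_zero.2 ha0
    positivity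
  intro g hg r hr
  set h : E n → ℝ≥0∞ := fun w => g ((r / ‖w‖ : ℝ) • w) with hh
  have hhm : Measurable h := by
    rw [hh]
    exact hg.comp (by fun_prop)
  have htm : Measurable (WithLp.toLp 2 : (Fin n → ℂ) → E n) := by fun_prop
  have hnorm : ∀ z : Fin n → ℂ, ‖(WithLp.toLp 2 z : E n)‖ = Real.sqrt (∑ i, ‖z i‖ ^ 2) := by
    intro z
    rw [EuclideanSpace.norm_eq]
  have h1 : ∫⁻ w in Metric.ball (0 : E n) 1, h w ∂(vol n) =
      (∫⁻ z in {z : Fin n → ℂ | ∑ i, ‖z i‖ ^ 2 < 1},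
        g (WithLp.toLp 2 ((r / Real.sqrt (∑ i, ‖z i‖ ^ 2)) • z))) := by
    rw [vol, setLIntegral_map Metric.isOpen_ball.measurableSet hhm htm]
    have hset : (WithLp.toLp 2 : (Fin n → ℂ) → E n) ⁻¹' (Metric.ball (0 : E n) 1) =
        {z : Fin n → ℂ | ∑ i, ‖z i‖ ^ 2 < 1} := by
      ext z
      rw [Set.mem_preimage, mem_ball_zero_iff, hnorm, Set.mem_ofPred_eq,
        Real.sqrt_lt' one_pos, one_pow]
    rw [hset]
    refine lintegral_congr fun z => ?_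
    rw [hh]
    simp only [hnorm]
    rfl
  rw [← h1, ha, Measure.restrict_smul, lintegral_smul_measure, lintegral_ball n hn h hhm]
  have h2 : ∀ x : ℝ, ∫⁻ ζ, h ((Real.exp (-x) : ℂ) • (ζ : E n)) ∂(sg n) =
      ∫⁻ ζ, g ((r : ℂ) • (ζ : E n)) ∂(sg n) := by
    intro x
    refine lintegral_congr fun ζ => ?_
    change g ((r / ‖(Real.exp (-x) : ℂ) • (ζ : E n)‖ : ℝ) • ((Real.exp (-x) : ℂ) • (ζ : E n))) = _
    congr 1
    have hζ : ‖(ζ : E n)‖ = 1 := by simp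
    have he : ‖(Real.exp (-x) : ℂ)‖ = Real.exp (-x) := by
      rw [Complex.norm_real, Real.norm_of_nonneg (Real.exp_pos _).le]
    rw [norm_smul, he, hζ, mul_one, ← Complex.coe_smul, smul_smul]
    congr 1
    push_cast
    have : (Real.exp (-x) : ℂ) ≠ 0 := by
      exact_mod_cast (Real.exp_pos _).ne'
    push_cast at this
    field_simp
  simp only [h2]
  rw [lintegral_mul_const _ (by fun_prop)]
  change a • (RM n * _) = _
  rw [ENNReal.smul_def, smul_eq_mul, ← mul_assoc]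
  congr 1
  rw [ENNReal.coe_mul, ENNReal.coe_toNNReal hR]

/-- the version used below: powers of norms of functions holomorphic in the ball -/
theorem mean_pow (n : ℕ) (hn : 1 ≤ n) : ∃ c : ℝ≥0, 0 < c ∧
    ∀ f : (Fin n → ℂ) → ℂ, DifferentiableOn ℂ f {z : Fin n → ℂ | ∑ i, ‖z i‖ ^ 2 < 1} →
      ∀ p : ℕ, ∀ r : ℝ, 0 < r → r < 1 →
      (∫⁻ z in {z : Fin n → ℂ | ∑ i, ‖z i‖ ^ 2 < 1},
        ‖f ((r / Real.sqrt (∑ i, ‖z i‖ ^ 2)) • z)‖ₑ ^ p) =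
      c * ∫⁻ ζ, ‖f (WithLp.ofLp ((r : ℂ) • (ζ : E n)))‖ₑ ^ p ∂(sg n) := by
  classical
  obtain ⟨c, hc, h⟩ := mean_eq n hn
  refine ⟨c, hc, ?_⟩
  intro f hf p r hr hr1
  set U : Set (E n) := Metric.ball 0 1 with hU
  set F : E n → ℂ := fun z => f (WithLp.ofLp z) with hF
  have hFd : DifferentiableOn ℂ F U := (transfer_diff n f).1 hf
  set Ft : E n → ℂ := U.indicator F with hFt
  have hFtm : Measurable Ft := by
    rw [hFt, ← Set.piecewise_eq_indicator]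
    exact hFd.continuousOn.measurable_piecewise continuousOn_const Metric.isOpen_ball.measurableSet
  have hg : Measurable (fun z : E n => ‖Ft z‖ₑ ^ p) := by fun_prop
  have key := h _ hg r hr
  have hUo : MeasurableSet {z : Fin n → ℂ | ∑ i, ‖z i‖ ^ 2 < 1} :=
    (isOpen_lt (by fun_prop) continuous_const).measurableSet
  rcases Nat.eq_zero_or_pos p with hp | hp
  · subst hp
    simpa using key
  have e1 : (∫⁻ z in {z : Fin n → ℂ | ∑ i, ‖z i‖ ^ 2 < 1},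
        ‖f ((r / Real.sqrt (∑ i, ‖z i‖ ^ 2)) • z)‖ₑ ^ p) =
      (∫⁻ z in {z : Fin n → ℂ | ∑ i, ‖z i‖ ^ 2 < 1},
        ‖Ft (WithLp.toLp 2 ((r / Real.sqrt (∑ i, ‖z i‖ ^ 2)) • z))‖ₑ ^ p) := by
    refine setLIntegral_congr_fun hUo fun z _ => ?_
    have hmem : (WithLp.toLp 2 ((r / Real.sqrt (∑ i, ‖z i‖ ^ 2)) • z) : E n) ∈ U := by
      rw [hU, mem_ball_zero_iff]
      have : ‖(WithLp.toLp 2 ((r / Real.sqrt (∑ i, ‖z i‖ ^ 2)) • z) : E n)‖ =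
          |r / Real.sqrt (∑ i, ‖z i‖ ^ 2)| * Real.sqrt (∑ i, ‖z i‖ ^ 2) := by
        rw [WithLp.toLp_smul, norm_smul, EuclideanSpace.norm_eq, Real.norm_eq_abs]
      rw [this]
      rcases (Real.sqrt_nonneg (∑ i, ‖z i‖ ^ 2)).eq_or_lt with h0 | h0
      · rw [← h0]; simp
      · rw [abs_of_nonneg (by positivity), div_mul_cancel₀ _ h0.ne']
        exact hr1
    simp only [hFt, Set.indicator_of_mem hmem, hF]
  have e2 : ∫⁻ ζ, ‖f (WithLp.ofLp ((r : ℂ) • (ζ : E n)))‖ₑ ^ p ∂(sg n) =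
      ∫⁻ ζ, ‖Ft ((r : ℂ) • (ζ : E n))‖ₑ ^ p ∂(sg n) := by
    refine lintegral_congr fun ζ => ?_
    have hmem : ((r : ℂ) • (ζ : E n)) ∈ U := by
      rw [hU, mem_ball_zero_iff, norm_smul, Complex.norm_real, Real.norm_of_nonneg hr.le]
      have hζ : ‖(ζ : E n)‖ = 1 := by simp
      rw [hζ, mul_one]
      exact hr1
    simp only [hFt, Set.indicator_of_mem hmem, hF]
  rw [e1, e2]
  exact key

theorem frozen :
    ∀ (n : ℕ), 1 < n →
    ∀ f : (Fin n → ℂ) → ℂ,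
      DifferentiableOn ℂ f {z : Fin n → ℂ | ∑ i, ‖z i‖ ^ 2 < 1} →
      (⨆ r ∈ Set.Ioo (0 : ℝ) 1,
          ∫⁻ z in {z : Fin n → ℂ | ∑ i, ‖z i‖ ^ 2 < 1},
            ‖f ((r / Real.sqrt (∑ i, ‖z i‖ ^ 2)) • z)‖ₑ) < ⊤ →
      ∃ (N : ℕ) (g h : Fin N → (Fin n → ℂ) → ℂ),
        (∀ i, DifferentiableOn ℂ (g i) {z : Fin n → ℂ | ∑ j, ‖z j‖ ^ 2 < 1} ∧
              (⨆ r ∈ Set.Ioo (0 : ℝ) 1,
                  ∫⁻ z in {z : Fin n → ℂ | ∑ j, ‖z j‖ ^ 2 < 1},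
                    ‖g i ((r / Real.sqrt (∑ j, ‖z j‖ ^ 2)) • z)‖ₑ ^ (2 : ℕ)) < ⊤ ∧
              DifferentiableOn ℂ (h i) {z : Fin n → ℂ | ∑ j, ‖z j‖ ^ 2 < 1} ∧
              (⨆ r ∈ Set.Ioo (0 : ℝ) 1,
                  ∫⁻ z in {z : Fin n → ℂ | ∑ j, ‖z j‖ ^ 2 < 1},
                    ‖h i ((r / Real.sqrt (∑ j, ‖z j‖ ^ 2)) • z)‖ₑ ^ (2 : ℕ)) < ⊤) ∧
        ∀ z ∈ {z : Fin n → ℂ | ∑ j, ‖z j‖ ^ 2 < 1}, f z = ∑ i, g i z * h i z := by
  intro n hn f hf hfin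
  obtain ⟨c, hc, hmean⟩ := mean_pow n hn.le
  have hσ : IsFiniteMeasure (sg n) := by unfold sg; infer_instance
  have hc0 : (c : ENNReal) ≠ 0 := by simpa using hc.ne'
  set M := (⨆ r ∈ Set.Ioo (0 : ℝ) 1,
          ∫⁻ z in {z : Fin n → ℂ | ∑ i, ‖z i‖ ^ 2 < 1},
            ‖f ((r / Real.sqrt (∑ i, ‖z i‖ ^ 2)) • z)‖ₑ) with hM
  have hgoal := goal n hn (fun z : E n => f (WithLp.ofLp z))
    ((transfer_diff n f).1 hf)
  have hbd : ∃ C : ℝ, ∀ r : ℝ, 0 ≤ r → r < 1 →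
      ∫⁻ ζ, ‖(fun z : E n => f (WithLp.ofLp z)) ((r : ℂ) • (ζ : E n))‖ₑ ∂(sg n) ≤
        ENNReal.ofReal C := by
    have h0 : ∫⁻ ζ, ‖(fun z : E n => f (WithLp.ofLp z)) (((0 : ℝ) : ℂ) • (ζ : E n))‖ₑ ∂(sg n) ≠ ⊤ := by
      simp only [Complex.ofReal_zero, zero_smul, lintegral_const]
      exact ENNReal.mul_ne_top (by simp) (measure_ne_top _ _)
    set K := max (∫⁻ ζ, ‖(fun z : E n => f (WithLp.ofLp z)) (((0 : ℝ) : ℂ) • (ζ : E n))‖ₑ ∂(sg n))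
      ((c : ENNReal)⁻¹ * M) with hK
    have hKt : K ≠ ⊤ := by
      rw [hK]
      refine (max_lt (lt_top_iff_ne_top.2 h0) ?_).ne
      exact ENNReal.mul_lt_top (ENNReal.inv_lt_top.2 (pos_iff_ne_zero.2 hc0)) hfin
    refine ⟨K.toReal, fun r hr0 hr1 => ?_⟩
    rw [ENNReal.ofReal_toReal hKt]
    rcases hr0.eq_or_lt with h | h
    · rw [← h]
      exact le_max_left _ _
    · have h1 := hmean f hf 1 r h hr1
      simp only [pow_one] at h1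
      have h2 : c * ∫⁻ ζ, ‖f (WithLp.ofLp ((r : ℂ) • (ζ : E n)))‖ₑ ∂(sg n) ≤ M := by
        rw [← h1, hM]
        exact le_iSup₂ (f := fun (r : ℝ) (_ : r ∈ Set.Ioo (0 : ℝ) 1) =>
          ∫⁻ z in {z : Fin n → ℂ | ∑ i, ‖z i‖ ^ 2 < 1},
            ‖f ((r / Real.sqrt (∑ i, ‖z i‖ ^ 2)) • z)‖ₑ) r ⟨h, hr1⟩
      refine le_trans ?_ (le_max_right _ _)
      calc ∫⁻ ζ, ‖(fun z : E n => f (WithLp.ofLp z)) ((r : ℂ) • (ζ : E n))‖ₑ ∂(sg n)
          = (c : ENNReal)⁻¹ * (c * ∫⁻ ζ, ‖f (WithLp.ofLp ((r : ℂ) • (ζ : E n)))‖ₑ ∂(sg n)) := by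
            rw [← mul_assoc, ENNReal.inv_mul_cancel hc0 ENNReal.coe_ne_top, one_mul]
        _ ≤ (c : ENNReal)⁻¹ * M := by gcongr
  obtain ⟨N, g, h, hg, hh, heq⟩ := hgoal hbd
  have key : ∀ u : E n → ℂ, DifferentiableOn ℂ u (Metric.ball (0 : E n) 1) →
      (∃ C : ℝ, ∀ r : ℝ, 0 ≤ r → r < 1 →
          ∫⁻ ζ, ‖u ((r : ℂ) • (ζ : E n))‖ₑ ^ 2 ∂(sg n) ≤ ENNReal.ofReal C) →
      DifferentiableOn ℂ (fun z : Fin n → ℂ => u (WithLp.toLp 2 z))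
        {z : Fin n → ℂ | ∑ j, ‖z j‖ ^ 2 < 1} ∧
      (⨆ r ∈ Set.Ioo (0 : ℝ) 1,
                  ∫⁻ z in {z : Fin n → ℂ | ∑ j, ‖z j‖ ^ 2 < 1},
                    ‖(fun z : Fin n → ℂ => u (WithLp.toLp 2 z))
                      ((r / Real.sqrt (∑ j, ‖z j‖ ^ 2)) • z)‖ₑ ^ (2 : ℕ)) < ⊤ := by
    rintro u hu ⟨C, hC⟩
    have hud : DifferentiableOn ℂ (fun z : Fin n → ℂ => u (WithLp.toLp 2 z))
        {z : Fin n → ℂ | ∑ j, ‖z j‖ ^ 2 < 1} := by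
      rw [transfer_diff]
      exact hu
    refine ⟨hud, ?_⟩
    refine lt_of_le_of_lt (b := (c : ENNReal) * ENNReal.ofReal C) ?_
      (ENNReal.mul_lt_top ENNReal.coe_lt_top ENNReal.ofReal_lt_top)
    refine iSup₂_le fun r hr => ?_
    rw [hmean _ hud 2 r hr.1 hr.2]
    gcongr
    exact hC r hr.1.le hr.2
  refine ⟨N, fun i z => g i (WithLp.toLp 2 z), fun i z => h i (WithLp.toLp 2 z), fun i => ?_, ?_⟩
  · obtain ⟨h1, h2⟩ := key (g i) (hg i).1 (hg i).2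
    obtain ⟨h3, h4⟩ := key (h i) (hh i).1 (hh i).2
    exact ⟨h1, h2, h3, h4⟩
  · intro z hz
    have hz' : (WithLp.toLp 2 z : E n) ∈ Metric.ball (0 : E n) 1 := by
      rw [mem_ball_zero_iff, EuclideanSpace.norm_eq, Real.sqrt_lt' one_pos, one_pow]
      exact hz
    exact heq _ hz'


end Pool.Agent.H383R3.BallFac
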