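import Mathlib
import Pool.Agent.H487R3.Cau.Stmts

/-!
# Project H487-CAUCHY, task `TaskFar`
-/

set_option autoImplicit false

open Set

namespace Pool.Agent.H383R3.CauFar

open Pool.Agent.H487R3.Cau

lemma divdiff {U : Set ℂ} (hU : Convex ℝ U) {q q' q'' : ℂ → ℂ}
    (h1 : ∀ w ∈ U, HasDerivAt q (q' w) w) (h2 : ∀ w ∈ U, HasDerivAt q' (q'' w) w)
    {M : ℝ} (hM : ∀ w ∈ U, ‖q'' w‖ ≤ M) {p0 p1 : ℂ} (hp0 : p0 ∈ U) (hp1 : p1 ∈ U)
    (hne : p0 ≠ p1) :
    ‖(q p1 - q p0) / (p1 - p0) - q' p1‖ ≤ M * ‖p1 - p0‖ := by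
  have hM0 : 0 ≤ M := (norm_nonneg _).trans (hM p0 hp0)
  have hseg : segment ℝ p0 p1 ⊆ U := hU.segment_subset hp0 hp1
  have hd : ∀ w ∈ segment ℝ p0 p1, ‖q' w - q' p1‖ ≤ M * ‖p1 - p0‖ := by
    intro w hw
    have h3 := hU.norm_image_sub_le_of_norm_hasDerivWithin_le (f := q') (f' := q'') (C := M)
      (fun x hx => (h2 x hx).hasDerivWithinAt) hM hp1 (hseg hw)
    refine h3.trans (mul_le_mul_of_nonneg_left ?_ hM0)
    have h4 := norm_sub_le_of_mem_segment hw
    have h5 : ‖w - p1‖ ≤ ‖p1 - p0‖ := by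
      rw [segment_symm] at hw
      have h6 := norm_sub_le_of_mem_segment hw
      rw [norm_sub_rev p0 p1] at h6
      exact h6
    exact h5
  have hf : ∀ w ∈ segment ℝ p0 p1,
      HasDerivWithinAt (fun w => q w - q' p1 * w) (q' w - q' p1) (segment ℝ p0 p1) w := by
    intro w hw
    have h3 := (h1 w (hseg hw)).sub ((hasDerivAt_id w).const_mul (q' p1))
    have h5 : HasDerivAt (fun w => q w - q' p1 * w) (q' w - q' p1) w :=
      h3.congr_deriv (by rw [mul_one])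
    exact h5.hasDerivWithinAt
  have h4 := (convex_segment p0 p1).norm_image_sub_le_of_norm_hasDerivWithin_le hf hd
    (left_mem_segment ℝ p0 p1) (right_mem_segment ℝ p0 p1)
  have hne' : p1 - p0 ≠ 0 := sub_ne_zero.2 hne.symm
  have e : (q p1 - q p0) / (p1 - p0) - q' p1 =
      ((q p1 - q' p1 * p1) - (q p0 - q' p1 * p0)) / (p1 - p0) := by
    field_simp
    ring
  rw [e, norm_div, div_le_iff₀ (norm_pos_iff.2 hne')]
  exact h4

lemma divdiff2 {U : Set ℂ} (hU : Convex ℝ U) {q q' q'' : ℂ → ℂ}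
    (h1 : ∀ w ∈ U, HasDerivAt q (q' w) w) (h2 : ∀ w ∈ U, HasDerivAt q' (q'' w) w)
    {M : ℝ} (hM : ∀ w ∈ U, ‖q'' w‖ ≤ M) {p0 p1 p2 : ℂ} (hp0 : p0 ∈ U) (hp1 : p1 ∈ U)
    (hp2 : p2 ∈ U) (hne : p0 ≠ p1) (hne' : p1 ≠ p2) :
    ‖(q p1 - q p0) / (p1 - p0) - (q p2 - q p1) / (p2 - p1)‖ ≤
      M * (‖p1 - p0‖ + ‖p2 - p1‖) := by
  have a1 := divdiff hU h1 h2 hM hp0 hp1 hne
  have a2 := divdiff hU h1 h2 hM hp2 hp1 hne'.symm
  have e2 : (q p1 - q p2) / (p1 - p2) = (q p2 - q p1) / (p2 - p1) := by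
    rw [← neg_sub (q p2) (q p1), ← neg_sub p2 p1, neg_div_neg_eq]
  rw [e2, norm_sub_rev p1 p2] at a2
  calc ‖(q p1 - q p0) / (p1 - p0) - (q p2 - q p1) / (p2 - p1)‖
      = ‖((q p1 - q p0) / (p1 - p0) - q' p1) - ((q p2 - q p1) / (p2 - p1) - q' p1)‖ := by
        congr 1; ring
    _ ≤ _ := norm_sub_le _ _
    _ ≤ M * ‖p1 - p0‖ + M * ‖p2 - p1‖ := add_le_add a1 a2
    _ = _ := by ring

lemma hasDerivAt_Lg {z : ℂ} (hz : z.re ≠ 0) : HasDerivAt Lg z⁻¹ z := by
  have hz0 : z ≠ 0 := by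
    rintro rfl; exact hz rfl
  have hsl : -Complex.I * z ∈ Complex.slitPlane := by
    rw [Complex.mem_slitPlane_iff]
    right
    simpa using hz
  have h1 : HasDerivAt (fun w : ℂ => -Complex.I * w) (-Complex.I) z := by
    simpa using (hasDerivAt_id z).const_mul (-Complex.I)
  have h2 := h1.clog hsl
  have e : -Complex.I / (-Complex.I * z) = z⁻¹ := by
    have : (-Complex.I) ≠ 0 := neg_ne_zero.2 Complex.I_ne_zero
    field_simp
  rw [e] at h2
  exact h2

lemma hasDerivAt_Phi {z : ℂ} (hz : z.re ≠ 0) : HasDerivAt Phi (Lg z + 1) z := by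
  have hz0 : z ≠ 0 := by
    rintro rfl; exact hz rfl
  have h1 := (hasDerivAt_id z).mul (hasDerivAt_Lg hz)
  have e : (1 : ℂ) * Lg z + id z * z⁻¹ = Lg z + 1 := by
    simp [hz0]
  rw [e] at h1
  exact h1

lemma G_sub_le {a : ℝ → ℂ} (ha : LipschitzWith (1 / 10) a) (s t : ℝ) :
    ‖a s - a t‖ ≤ |s - t| / 10 := by
  have h := ha.dist_le_mul s t
  rw [dist_eq_norm, Real.dist_eq] at h
  refine h.trans (le_of_eq ?_)
  simp only [one_div, NNReal.coe_inv, NNReal.coe_ofNat]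
  ring

lemma G_norm_le {a : ℝ → ℂ} (ha : LipschitzWith (1 / 10) a) (s t : ℝ) :
    ‖G a s - G a t‖ ≤ 11 / 10 * |s - t| := by
  have h := G_sub_le ha s t
  have e : G a s - G a t = ((s - t : ℝ) : ℂ) + (a s - a t) := by
    unfold G; push_cast; ring
  rw [e]
  refine (norm_add_le _ _).trans ?_
  rw [Complex.norm_real, Real.norm_eq_abs]
  linarith

lemma G_re {a : ℝ → ℂ} (ha : LipschitzWith (1 / 10) a) {s t : ℝ} (hst : t ≤ s) :
    9 / 10 * (s - t) ≤ (G a s).re - (G a t).re := by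
  have h := G_sub_le ha s t
  have h2 := Complex.abs_re_le_norm (a s - a t)
  rw [abs_of_nonneg (by linarith : (0:ℝ) ≤ s - t)] at h
  have h3 := (abs_le.1 (h2.trans h)).1
  simp only [Complex.sub_re] at h3
  unfold G
  simp only [Complex.add_re, Complex.ofReal_re]
  linarith

lemma G_ne {a : ℝ → ℂ} (ha : LipschitzWith (1 / 10) a) {s t : ℝ} (hst : t < s) :
    G a t ≠ G a s := by
  intro h
  have := G_re ha hst.le
  rw [h] at this
  linarith

/-- bound of the second derivative -/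
lemma inv_bound {σ E : ℝ} (hE : 0 < E) (hσ : |σ| = 1) {w y0 y1 y2 : ℂ} {δ : ℝ}
    (h0 : E ≤ σ * (y0.re - w.re)) (h1 : E ≤ σ * (y1.re - w.re)) (h2 : E ≤ σ * (y2.re - w.re))
    (hne : y0 ≠ y1) (hne' : y1 ≠ y2) :
    ‖((y1 - w + δ * Complex.I)⁻¹ - (y0 - w + δ * Complex.I)⁻¹) / (y1 - y0) -
      ((y2 - w + δ * Complex.I)⁻¹ - (y1 - w + δ * Complex.I)⁻¹) / (y2 - y1)‖ ≤
      2 / E ^ 3 * (‖y1 - y0‖ + ‖y2 - y1‖) := by
  set V : Set ℂ := {z : ℂ | E ≤ σ * (z.re - w.re)} with hV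
  have hVc : Convex ℝ V := by
    intro x hx y hy s t hs ht hst
    simp only [hV, mem_ofPred_eq, Complex.add_re, Complex.real_smul, Complex.mul_re,
      Complex.ofReal_re, Complex.ofReal_im, zero_mul, sub_zero] at hx hy ⊢
    have e : σ * (s * x.re + t * y.re - w.re) =
        s * (σ * (x.re - w.re)) + t * (σ * (y.re - w.re)) := by
      have : w.re = (s + t) * w.re := by rw [hst, one_mul]
      linear_combination (-σ) * this
    rw [e]
    calc E = s * E + t * E := by rw [← add_mul, hst, one_mul]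
      _ ≤ _ := add_le_add (mul_le_mul_of_nonneg_left hx hs) (mul_le_mul_of_nonneg_left hy ht)
  have hlow : ∀ z ∈ V, E ≤ ‖z - w + δ * Complex.I‖ := by
    intro z hz
    have h3 := Complex.abs_re_le_norm (z - w + δ * Complex.I)
    have e : (z - w + δ * Complex.I).re = z.re - w.re := by simp
    rw [e] at h3
    refine le_trans ?_ h3
    have h4 : E ≤ |σ * (z.re - w.re)| := le_trans hz (le_abs_self _)
    rwa [abs_mul, hσ, one_mul] at h4
  have hnz : ∀ z ∈ V, z - w + δ * Complex.I ≠ 0 := by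
    intro z hz h
    have := hlow z hz
    rw [h, norm_zero] at this
    linarith
  have hd0 : ∀ z : ℂ, HasDerivAt (fun z : ℂ => z - w + δ * Complex.I) 1 z := by
    intro z
    simpa using ((hasDerivAt_id z).sub_const w).add_const ((δ : ℂ) * Complex.I)
  refine divdiff2 (U := V) hVc (q := fun z => (z - w + δ * Complex.I)⁻¹)
    (q' := fun z => -((z - w + δ * Complex.I) ^ 2)⁻¹)
    (q'' := fun z => 2 * ((z - w + δ * Complex.I) ^ 3)⁻¹) ?_ ?_ ?_ h0 h1 h2 hne hne'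
  · intro z hz
    have := (hd0 z).inv (hnz z hz)
    refine this.congr_deriv ?_
    rw [neg_div, one_div]
  · intro z hz
    have h3 := (((hd0 z).pow 2).inv (pow_ne_zero 2 (hnz z hz))).neg
    refine h3.congr_deriv ?_
    have := hnz z hz
    field_simp
    try norm_num
    try ring
  · intro z hz
    rw [norm_mul, norm_inv, norm_pow]
    have h3 := hlow z hz
    have h4 : E ^ 3 ≤ ‖z - w + δ * Complex.I‖ ^ 3 := pow_le_pow_left₀ hE.le h3 3
    have h5 : (‖z - w + δ * Complex.I‖ ^ 3)⁻¹ ≤ (E ^ 3)⁻¹ := inv_anti₀ (by positivity) h4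
    have h6 : ‖(2 : ℂ)‖ = 2 := by simp
    rw [h6, div_eq_mul_inv]
    linarith

/-- The double estimate in terms of nodes. -/
lemma main_nodes {σ E : ℝ} (hE : 0 < E) (hσ : |σ| = 1) {x0 x1 x2 y0 y1 y2 : ℂ} {δ : ℝ} {H : ℝ}
    (hy : ‖y1 - y0‖ + ‖y2 - y1‖ ≤ H)
    (h00 : E ≤ σ * (y0.re - x0.re)) (h01 : E ≤ σ * (y0.re - x1.re))
    (h02 : E ≤ σ * (y0.re - x2.re))
    (h10 : E ≤ σ * (y1.re - x0.re)) (h11 : E ≤ σ * (y1.re - x1.re))
    (h12 : E ≤ σ * (y1.re - x2.re))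
    (h20 : E ≤ σ * (y2.re - x0.re)) (h21 : E ≤ σ * (y2.re - x1.re))
    (h22 : E ≤ σ * (y2.re - x2.re))
    (hne : y0 ≠ y1) (hne' : y1 ≠ y2) (hme : x0 ≠ x1) (hme' : x1 ≠ x2) (q : ℂ → ℂ)
    (hq : ∀ w, q w = (Phi (y1 - w + δ * Complex.I) - Phi (y0 - w + δ * Complex.I)) / (y1 - y0) -
      (Phi (y2 - w + δ * Complex.I) - Phi (y1 - w + δ * Complex.I)) / (y2 - y1)) :
    ‖(q x1 - q x0) / (x1 - x0) - (q x2 - q x1) / (x2 - x1)‖ ≤
      2 / E ^ 3 * H * (‖x1 - x0‖ + ‖x2 - x1‖) := by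
  set U : Set ℂ := {w : ℂ | E ≤ σ * (y0.re - w.re) ∧ E ≤ σ * (y1.re - w.re) ∧
    E ≤ σ * (y2.re - w.re)} with hU
  have hUc : Convex ℝ U := by
    intro x hx y hy s t hs ht hst
    simp only [hU, mem_ofPred_eq, Complex.add_re, Complex.real_smul, Complex.mul_re,
      Complex.ofReal_re, Complex.ofReal_im, zero_mul, sub_zero] at hx hy ⊢
    have key : ∀ c : ℝ, E ≤ σ * (c - x.re) → E ≤ σ * (c - y.re) →
        E ≤ σ * (c - (s * x.re + t * y.re)) := by
      intro c hcx hcy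
      have e : σ * (c - (s * x.re + t * y.re)) =
          s * (σ * (c - x.re)) + t * (σ * (c - y.re)) := by
        have : c = (s + t) * c := by rw [hst, one_mul]
        linear_combination σ * this
      rw [e]
      calc E = s * E + t * E := by rw [← add_mul, hst, one_mul]
        _ ≤ _ := add_le_add (mul_le_mul_of_nonneg_left hcx hs)
          (mul_le_mul_of_nonneg_left hcy ht)
    exact ⟨key _ hx.1 hy.1, key _ hx.2.1 hy.2.1, key _ hx.2.2 hy.2.2⟩
  have hnz : ∀ y w : ℂ, E ≤ σ * (y.re - w.re) → (y - w + δ * Complex.I).re ≠ 0 := by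
    intro y w h h3
    have e : (y - w + δ * Complex.I).re = y.re - w.re := by simp
    rw [e] at h3
    rw [h3, mul_zero] at h
    linarith
  have hd0 : ∀ y w : ℂ, HasDerivAt (fun w : ℂ => y - w + δ * Complex.I) (-1) w := by
    intro y w
    simpa using ((hasDerivAt_id w).const_sub y).add_const ((δ : ℂ) * Complex.I)
  have hdP : ∀ y w : ℂ, E ≤ σ * (y.re - w.re) →
      HasDerivAt (fun w : ℂ => Phi (y - w + δ * Complex.I))
        (-(Lg (y - w + δ * Complex.I) + 1)) w := by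
    intro y w h
    have h3 := (hasDerivAt_Phi (hnz y w h)).comp w (hd0 y w)
    refine h3.congr_deriv ?_
    ring
  have hdL : ∀ y w : ℂ, E ≤ σ * (y.re - w.re) →
      HasDerivAt (fun w : ℂ => -(Lg (y - w + δ * Complex.I) + 1))
        ((y - w + δ * Complex.I)⁻¹) w := by
    intro y w h
    have h3 := (((hasDerivAt_Lg (hnz y w h)).comp w (hd0 y w)).add_const (1 : ℂ)).neg
    refine h3.congr_deriv ?_
    ring
  have hq' : q = fun w => (Phi (y1 - w + δ * Complex.I) - Phi (y0 - w + δ * Complex.I)) /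
      (y1 - y0) - (Phi (y2 - w + δ * Complex.I) - Phi (y1 - w + δ * Complex.I)) / (y2 - y1) :=
    funext hq
  refine divdiff2 (U := U) hUc (q := q)
    (q' := fun w => (-(Lg (y1 - w + δ * Complex.I) + 1) - -(Lg (y0 - w + δ * Complex.I) + 1)) /
      (y1 - y0) - (-(Lg (y2 - w + δ * Complex.I) + 1) - -(Lg (y1 - w + δ * Complex.I) + 1)) /
      (y2 - y1))
    (q'' := fun w => ((y1 - w + δ * Complex.I)⁻¹ - (y0 - w + δ * Complex.I)⁻¹) / (y1 - y0) -
      ((y2 - w + δ * Complex.I)⁻¹ - (y1 - w + δ * Complex.I)⁻¹) / (y2 - y1)) ?_ ?_ ?_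
    ⟨h00, h10, h20⟩ ⟨h01, h11, h21⟩ ⟨h02, h12, h22⟩ hme hme'
  · intro w hw
    rw [hq']
    exact (((hdP y1 w hw.2.1).sub (hdP y0 w hw.1)).div_const _).sub
      (((hdP y2 w hw.2.2).sub (hdP y1 w hw.2.1)).div_const _)
  · intro w hw
    exact (((hdL y1 w hw.2.1).sub (hdL y0 w hw.1)).div_const _).sub
      (((hdL y2 w hw.2.2).sub (hdL y1 w hw.2.1)).div_const _)
  · intro w hw
    refine (inv_bound hE hσ hw.1 hw.2.1 hw.2.2 hne hne').trans ?_
    exact mul_le_mul_of_nonneg_left hy (by positivity)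

/-- The double estimate for ordered intervals. -/
lemma main_ordered {a : ℝ → ℂ} (ha : LipschitzWith (1 / 10) a) {δ : ℝ}
    {l h l' h' D σ : ℝ} (hh : 0 < h) (hh' : 0 < h') (hD : 0 < D) (hσ : |σ| = 1)
    (hord : ∀ x ∈ Icc l (l + 2 * h), ∀ y ∈ Icc l' (l' + 2 * h'),
      9 / 10 * D ≤ σ * ((G a y).re - (G a x).re)) :
    ‖W a (fun x => W a (fun y => P a δ x y) l' h') l h‖ ≤ 14 * (h * h' / D ^ 3) := by
  have hx0 : l ∈ Icc l (l + 2 * h) := ⟨le_refl _, by linarith⟩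
  have hx1 : l + h ∈ Icc l (l + 2 * h) := ⟨by linarith, by linarith⟩
  have hx2 : l + 2 * h ∈ Icc l (l + 2 * h) := ⟨by linarith, le_refl _⟩
  have hy0 : l' ∈ Icc l' (l' + 2 * h') := ⟨le_refl _, by linarith⟩
  have hy1 : l' + h' ∈ Icc l' (l' + 2 * h') := ⟨by linarith, by linarith⟩
  have hy2 : l' + 2 * h' ∈ Icc l' (l' + 2 * h') := ⟨by linarith, le_refl _⟩
  have n1 : ∀ l h : ℝ, 0 < h → ‖G a (l + h) - G a l‖ + ‖G a (l + 2 * h) - G a (l + h)‖ ≤
      11 / 5 * h := by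
    intro l h hh
    have a1 := G_norm_le ha (l + h) l
    have a2 := G_norm_le ha (l + 2 * h) (l + h)
    have e1 : |l + h - l| = h := by rw [add_sub_cancel_left]; exact abs_of_pos hh
    have e2 : |l + 2 * h - (l + h)| = h := by
      rw [show l + 2 * h - (l + h) = h by ring]; exact abs_of_pos hh
    rw [e1] at a1
    rw [e2] at a2
    linarith
  have key := main_nodes (σ := σ) (E := 9 / 10 * D) (by positivity) hσ (δ := δ)
    (x0 := G a l) (x1 := G a (l + h)) (x2 := G a (l + 2 * h))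
    (y0 := G a l') (y1 := G a (l' + h')) (y2 := G a (l' + 2 * h')) (H := 11 / 5 * h')
    (n1 l' h' hh')
    (hord _ hx0 _ hy0) (hord _ hx1 _ hy0) (hord _ hx2 _ hy0)
    (hord _ hx0 _ hy1) (hord _ hx1 _ hy1) (hord _ hx2 _ hy1)
    (hord _ hx0 _ hy2) (hord _ hx1 _ hy2) (hord _ hx2 _ hy2)
    (G_ne ha (by linarith)) (G_ne ha (by linarith)) (G_ne ha (by linarith))
    (G_ne ha (by linarith)) _ (fun w => rfl)
  refine le_trans (le_of_eq ?_) (key.trans ?_)
  · rfl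
  · have a1 := n1 l h hh
    have hc : 0 ≤ 2 / (9 / 10 * D) ^ 3 * (11 / 5 * h') := by positivity
    refine (mul_le_mul_of_nonneg_left a1 hc).trans ?_
    have e : 2 / (9 / 10 * D) ^ 3 * (11 / 5 * h') * (11 / 5 * h) =
        (2 * (11 / 5) ^ 2 / (9 / 10) ^ 3) * (h * h' / D ^ 3) := by
      field_simp
    rw [e]
    refine mul_le_mul_of_nonneg_right ?_ (by positivity)
    norm_num

theorem taskFar : TaskFar := by
  refine ⟨14, by norm_num, ?_⟩
  intro a ha δ _ _ l h l' h' D hh hh' hD hdist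
  rcases le_or_gt l l' with hl | hl
  · -- x-interval to the left of the y-interval
    have h1 : l + 2 * h < l' := by
      by_contra hcon
      push Not at hcon
      have := hdist l' ⟨hl, hcon⟩ l' ⟨le_refl _, by linarith⟩
      rw [sub_self, abs_zero] at this
      linarith
    refine main_ordered ha hh hh' hD (σ := 1) (by norm_num) ?_
    intro x hx y hy
    have h2 := hdist x hx y hy
    have h3 : x ≤ y := by linarith [hx.2, hy.1]
    rw [abs_sub_comm, abs_of_nonneg (by linarith : (0:ℝ) ≤ y - x)] at h2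
    have h4 := G_re ha h3
    linarith
  · have h1 : l' + 2 * h' < l := by
      by_contra hcon
      push Not at hcon
      have := hdist l ⟨le_refl _, by linarith⟩ l ⟨hl.le, hcon⟩
      rw [sub_self, abs_zero] at this
      linarith
    refine main_ordered ha hh hh' hD (σ := -1) (by norm_num) ?_
    intro x hx y hy
    have h2 := hdist x hx y hy
    have h3 : y ≤ x := by linarith [hy.2, hx.1]
    rw [abs_of_nonneg (by linarith : (0:ℝ) ≤ x - y)] at h2
    have h4 := G_re ha h3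
    linarith

end Pool.Agent.H383R3.CauFar
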