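import Pool.Agent.H128R2.Evas.Final
import Pool.Agent.H571R3.Asm

set_option autoImplicit false

namespace Pool.Agent.H383R3.Evas

open Pool.Agent.H128R2.Evas

open Classical in
/-- A decision tree of depth at most `m` yields membership in every family closed under the two
rules. -/
theorem closure_tree {V : Type} [DecidableEq V] (P : ℕ → ((V → Bool) → Bool) → Prop)
    (hc : ∀ (m : ℕ) (g : (V → Bool) → Bool), (∀ x y, g x = g y) → P m g)
    (hs : ∀ (m : ℕ) (g : (V → Bool) → Bool) (i : V),
      P m (fun x => g (Function.update x i false)) →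
      P m (fun x => g (Function.update x i true)) → P (m + 1) g)
    (t : DT V) : ∀ (m : ℕ), t.depth ≤ m → ∀ (A : Set V) (a : V → Bool),
      P m (fun x => t.eval (fun w => if w ∈ A then a w else x w)) := by
  induction t with
  | leaf b =>
    intro m _ A a
    exact hc m _ fun x y => rfl
  | node v t0 t1 h0 h1 =>
    intro m hm A a
    have hm' : max t0.depth t1.depth + 1 ≤ m := hm
    by_cases hv : v ∈ A
    · cases hb : a v with
      | false =>
        have := h0 m (by omega) A a
        convert this using 2 with x
        simp [DT.eval, hv, hb]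
      | true =>
        have := h1 m (by omega) A a
        convert this using 2 with x
        simp [DT.eval, hv, hb]
    · obtain ⟨m, rfl⟩ : ∃ m', m = m' + 1 := ⟨m - 1, by omega⟩
      refine hs m _ v ?_ ?_
      · have := h0 m (by omega) (insert v A) (Function.update a v false)
        convert this using 2 with x
        simp only [DT.eval, hv, if_false, Function.update_self, Bool.false_eq_true]
        congr 1
        funext w
        by_cases hw : w = v
        · subst hw
          simp [hv]
        · simp [Function.update_of_ne hw, hw]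
      · have := h1 m (by omega) (insert v A) (Function.update a v true)
        convert this using 2 with x
        simp only [DT.eval, hv, if_false, Function.update_self, if_true]
        congr 1
        funext w
        by_cases hw : w = v
        · subst hw
          simp [hv]
        · simp [Function.update_of_ne hw, hw]

/-- A single nonevasive (`depth + 1 ≤ card`) nonconstant monotone transitive function refutes the
weak evasiveness conjecture. -/
theorem final {V : Type} [Fintype V] (f : (V → Bool) → Bool) (hm : Monotone f)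
    (hnc : ∃ x y, f x ≠ f y)
    (htr : ∀ i j : V, ∃ σ : Equiv.Perm V, σ i = j ∧ ∀ x : V → Bool, f (x ∘ σ) = f x)
    (T : DT V) (hT : ∀ x, T.eval x = f x) (hd : T.depth + 1 ≤ Fintype.card V) :
    ¬ (∀ ε : ℝ, 0 < ε → ∃ N : ℕ, ∀ n : ℕ, N ≤ n →
      ∀ f : (Fin n → Bool) → Bool,
        Monotone f →
        (∃ x y : Fin n → Bool, f x ≠ f y) →
        (∀ i j : Fin n, ∃ σ : Equiv.Perm (Fin n), σ i = j ∧
            ∀ x : Fin n → Bool, f (x ∘ σ) = f x) →
        ∀ k : ℕ,
        (∀ P : ℕ → ((Fin n → Bool) → Bool) → Prop,
          (∀ (m : ℕ) (g : (Fin n → Bool) → Bool), (∀ x y, g x = g y) → P m g) →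
          (∀ (m : ℕ) (g : (Fin n → Bool) → Bool) (i : Fin n),
             P m (fun x => g (Function.update x i false)) →
             P m (fun x => g (Function.update x i true)) → P (m + 1) g) →
          P k f) →
        (n : ℝ) ^ (1 - ε) ≤ (k : ℝ)) := by
  intro H
  set m := Fintype.card V with hmdef
  -- depth at least one
  have hdep : 1 ≤ T.depth := by
    obtain ⟨x, y, hxy⟩ := hnc
    cases T with
    | leaf b => exact absurd ((hT x).symm.trans (hT y)) hxy
    | node v t0 t1 => simp [DT.depth]
  have hm2 : 2 ≤ m := by omega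
  have hf0 : f (fun _ => false) = false := by
    by_contra h
    have h' : f (fun _ => false) = true := by simpa using h
    obtain ⟨x, y, hxy⟩ := hnc
    have hx : f x = true := by
      have := hm (show (fun _ => false) ≤ x from fun _ => Bool.false_le _)
      rw [h'] at this
      revert this
      cases f x <;> decide
    have hy : f y = true := by
      have := hm (show (fun _ => false) ≤ y from fun _ => Bool.false_le _)
      rw [h'] at this
      revert this
      cases f y <;> decide
    exact hxy (hx.trans hy.symm)
  have hf1 : f (fun _ => true) = true := by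
    by_contra h
    have h' : f (fun _ => true) = false := by simpa using h
    obtain ⟨x, y, hxy⟩ := hnc
    have hx : f x = false := by
      have := hm (show x ≤ (fun _ => true) from fun _ => Bool.le_true _)
      rw [h'] at this
      revert this
      cases f x <;> decide
    have hy : f y = false := by
      have := hm (show y ≤ (fun _ => true) from fun _ => Bool.le_true _)
      rw [h'] at this
      revert this
      cases f y <;> decide
    exact hxy (hx.trans hy.symm)
  have hmR : (2 : ℝ) ≤ (m : ℝ) := by exact_mod_cast hm2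
  have hlogm : 0 < Real.log m := Real.log_pos (by linarith)
  have hlt : Real.log ((m : ℝ) - 1) < Real.log m :=
    Real.log_lt_log (by linarith) (by linarith)
  set ε : ℝ := (Real.log m - Real.log ((m : ℝ) - 1)) / (2 * Real.log m) with hε
  have hεpos : 0 < ε := div_pos (by linarith) (by linarith)
  obtain ⟨N, hN⟩ := H ε hεpos
  -- choose k
  obtain ⟨k, hk⟩ : ∃ k : ℕ, N ≤ m ^ (k + 1) := by
    refine ⟨N, ?_⟩
    calc N ≤ N + 1 := Nat.le_succ _
      _ ≤ m ^ (N + 1) := (Nat.lt_pow_self (by omega)).le
  obtain ⟨t, ht, htd⟩ := pow_tree f T hT (k + 1)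
  have hcard : Fintype.card (PV V (k + 1)) = m ^ (k + 1) := card_PV V (k + 1)
  let e : PV V (k + 1) ≃ Fin (m ^ (k + 1)) := Fintype.equivFinOfCardEq hcard
  have hpos : 0 < m ^ (k + 1) := by positivity
  have : Inhabited (Fin (m ^ (k + 1))) := ⟨⟨0, hpos⟩⟩
  have key := hN (m ^ (k + 1)) hk (fun x => pow f (k + 1) (fun w => x (e w)))
    (by
      intro x y hxy
      exact pow_mono f hm (k + 1) (fun w => hxy (e w)))
    ⟨fun _ => false, fun _ => true, by
      simp only [pow_const f false hf0, pow_const f true hf1]
      decide⟩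
    (by
      intro i j
      obtain ⟨σ, hσ, hσ'⟩ := pow_trans f htr (k + 1) (e.symm i) (e.symm j)
      refine ⟨(e.symm.trans σ).trans e, ?_, ?_⟩
      · simp [hσ]
      · intro x
        have := hσ' (fun w => x (e w))
        rw [← this]
        congr 1
        funext w
        simp)
    ((m - 1) ^ (k + 1))
    (by
      intro P hc hs
      have h := closure_tree P hc hs (DT.map e t) ((m - 1) ^ (k + 1)) (by
          rw [DT.depth_map]
          exact htd.trans (Nat.pow_le_pow_left (by omega) _)) ∅ (fun _ => false)
      simp only [Set.mem_empty_iff_false, if_false, DT.eval_map, ht] at h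
      exact h)
  -- contradiction
  have h1 : ((m - 1 : ℕ) : ℝ) = (m : ℝ) - 1 := by
    rw [Nat.cast_sub (by omega)]
    simp
  have h2 : (((m ^ (k + 1) : ℕ) : ℝ)) ^ (1 - ε) = ((m : ℝ) ^ (1 - ε)) ^ (k + 1) := by
    rw [Nat.cast_pow, ← Real.rpow_natCast, ← Real.rpow_natCast, ← Real.rpow_mul (by positivity),
      ← Real.rpow_mul (by positivity), mul_comm]
  have h3 : (((m - 1) ^ (k + 1) : ℕ) : ℝ) = ((m : ℝ) - 1) ^ (k + 1) := by
    rw [Nat.cast_pow, h1]
  rw [h2, h3] at key
  have h4 : (m : ℝ) - 1 < (m : ℝ) ^ (1 - ε) := by
    have hm1 : (0 : ℝ) < (m : ℝ) - 1 := by linarith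
    rw [← Real.exp_log hm1, Real.rpow_def_of_pos (by linarith)]
    apply Real.exp_lt_exp.mpr
    have h5 : Real.log m * (1 - ε) = (Real.log m + Real.log ((m : ℝ) - 1)) / 2 := by
      rw [hε]
      field_simp
      ring
    rw [h5]
    linarith
  have h6 : ((m : ℝ) - 1) ^ (k + 1) < ((m : ℝ) ^ (1 - ε)) ^ (k + 1) :=
    pow_lt_pow_left₀ h4 (by linarith) (by omega)
  linarith

theorem frozen : ¬ (∀ ε : ℝ, 0 < ε → ∃ N : ℕ, ∀ n : ℕ, N ≤ n →
    ∀ f : (Fin n → Bool) → Bool, Monotone f → (∃ x y, f x ≠ f y) →
      (∀ i j : Fin n, ∃ σ : Equiv.Perm (Fin n), σ i = j ∧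
          ∀ x : Fin n → Bool, f (x ∘ σ) = f x) →
      ∀ k : ℕ,
        (∀ P : ℕ → ((Fin n → Bool) → Bool) → Prop,
          (∀ (m : ℕ) (g : (Fin n → Bool) → Bool), (∀ x y, g x = g y) → P m g) →
          (∀ (m : ℕ) (g : (Fin n → Bool) → Bool) (i : Fin n),
             P m (fun x => g (Function.update x i false)) →
             P m (fun x => g (Function.update x i true)) → P (m + 1) g) →
          P k f) →
        (n : ℝ) ^ (1 - ε) ≤ (k : ℝ)) := by
  obtain ⟨W, hW, f, T, hm, hnc, htr, hT, hd⟩ := Pool.Agent.H571R3.Asm.exists_nonevasive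
  exact final f hm hnc htr T hT hd

end Pool.Agent.H383R3.Evas
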