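import Mathlib

set_option autoImplicit false

namespace Pool.Agent.H383R3.MO

open Finset Filter Topology

/-- Abel summation identity. -/
theorem abel (f : ℕ → ℂ) (g : ℕ → ℝ) (N : ℕ) :
    ∑ n ∈ Icc 1 N, f n * (g n : ℂ) = (∑ n ∈ Icc 1 N, f n) * (g (N + 1) : ℂ)
      + ∑ n ∈ Icc 1 N, (∑ m ∈ Icc 1 n, f m) * ((g n - g (n + 1) : ℝ) : ℂ) := by
  induction N with
  | zero => simp
  | succ N ih =>
    rw [Finset.sum_Icc_succ_top (by omega), Finset.sum_Icc_succ_top (by omega),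
      Finset.sum_Icc_succ_top (by omega), ih]
    rw [Finset.sum_Icc_succ_top (by omega : 1 ≤ N + 1)]
    push_cast
    ring

theorem rpow_diff {n : ℕ} (hn : 1 ≤ n) {s : ℝ} (hs : 0 < s) :
    0 ≤ (n : ℝ) ^ (-s) - ((n + 1 : ℕ) : ℝ) ^ (-s) ∧
      (n : ℝ) ^ (-s) - ((n + 1 : ℕ) : ℝ) ^ (-s) ≤ s / n := by
  have hn0 : (0 : ℝ) < n := by exact_mod_cast hn
  have h1 : ((n + 1 : ℕ) : ℝ) = n * (1 + 1 / n) := by
    push_cast; field_simp
  have h2 : (0 : ℝ) < 1 + 1 / n := by positivity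
  constructor
  · have : ((n + 1 : ℕ) : ℝ) ^ (-s) ≤ (n : ℝ) ^ (-s) := by
      apply Real.rpow_le_rpow_of_nonpos hn0 _ (by linarith)
      push_cast; linarith
    linarith
  · rw [h1, Real.mul_rpow hn0.le h2.le]
    have h3 : 1 - s / n ≤ (1 + 1 / (n : ℝ)) ^ (-s) := by
      rw [Real.rpow_def_of_pos h2]
      have h4 : Real.log (1 + 1 / n) ≤ 1 / n := by
        have := Real.log_le_sub_one_of_pos h2
        linarith
      have h5 : Real.log (1 + 1 / n) * -s + 1 ≤ Real.exp (Real.log (1 + 1 / n) * -s) :=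
        Real.add_one_le_exp _
      have h6 : s * Real.log (1 + 1 / n) ≤ s * (1 / n) := mul_le_mul_of_nonneg_left h4 hs.le
      have h7 : s * (1 / n) = s / n := by ring
      linarith
    have h8 : (n : ℝ) ^ (-s) ≤ 1 := Real.rpow_le_one_of_one_le_of_nonpos (by exact_mod_cast hn) (by linarith)
    have h9 : 0 < (n : ℝ) ^ (-s) := Real.rpow_pos_of_pos hn0 _
    have h10 : (n : ℝ) ^ (-s) - (n : ℝ) ^ (-s) * (1 + 1 / (n : ℝ)) ^ (-s)
        = (n : ℝ) ^ (-s) * (1 - (1 + 1 / (n : ℝ)) ^ (-s)) := by ring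
    rw [h10]
    by_cases hneg : 1 - (1 + 1 / (n : ℝ)) ^ (-s) ≤ 0
    · have : (n : ℝ) ^ (-s) * (1 - (1 + 1 / (n : ℝ)) ^ (-s)) ≤ 0 :=
        mul_nonpos_of_nonneg_of_nonpos h9.le hneg
      have : 0 < s / n := by positivity
      linarith
    · push Not at hneg
      calc (n : ℝ) ^ (-s) * (1 - (1 + 1 / (n : ℝ)) ^ (-s))
          ≤ 1 * (1 - (1 + 1 / (n : ℝ)) ^ (-s)) := mul_le_mul_of_nonneg_right h8 hneg.le
        _ ≤ s / n := by linarith

/-- The Dirichlet series is `O(s)` when the partial sums are `O(1/n)`. -/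
theorem upper (f : ℕ → ℂ) (C : ℝ) (hC : 0 ≤ C)
    (hS : ∀ n : ℕ, 1 ≤ n → ‖∑ m ∈ Icc 1 n, f m‖ ≤ C / n) {s : ℝ} (hs : 0 < s)
    (hsum : Summable (fun n : ℕ => f n * (((n : ℝ) ^ (-s) : ℝ) : ℂ))) :
    ‖∑' n : ℕ, f n * (((n : ℝ) ^ (-s) : ℝ) : ℂ)‖ ≤ (C * ∑' n : ℕ, 1 / (n : ℝ) ^ 2) * s := by
  have hsq : Summable (fun n : ℕ => 1 / (n : ℝ) ^ 2) := by
    exact Real.summable_one_div_nat_pow.mpr (by norm_num)
  have hlim : Tendsto (fun N : ℕ => ∑ n ∈ range (N + 1), f n * (((n : ℝ) ^ (-s) : ℝ) : ℂ)) atTop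
      (𝓝 (∑' n : ℕ, f n * (((n : ℝ) ^ (-s) : ℝ) : ℂ))) :=
    (hsum.hasSum.tendsto_sum_nat).comp (tendsto_add_atTop_nat 1)
  have hEq : ∀ N : ℕ, ∑ n ∈ range (N + 1), f n * (((n : ℝ) ^ (-s) : ℝ) : ℂ)
      = ∑ n ∈ Icc 1 N, f n * (((n : ℝ) ^ (-s) : ℝ) : ℂ) := by
    intro N
    rw [Finset.range_eq_Ico, Finset.sum_eq_sum_Ico_succ_bot (by omega)]
    have h0 : f 0 * ((((0 : ℕ) : ℝ) ^ (-s) : ℝ) : ℂ) = 0 := by
      rw [Nat.cast_zero, Real.zero_rpow (by linarith)]; simp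
    rw [h0, zero_add]
    rfl
  have hbound : ∀ N : ℕ, ‖∑ n ∈ range (N + 1), f n * (((n : ℝ) ^ (-s) : ℝ) : ℂ)‖
      ≤ C / N + (C * ∑' n : ℕ, 1 / (n : ℝ) ^ 2) * s := by
    intro N
    rw [hEq, abel f (fun n => (n : ℝ) ^ (-s)) N]
    refine (norm_add_le _ _).trans (add_le_add ?_ ?_)
    · rcases Nat.eq_zero_or_pos N with rfl | hN
      · simp
      · rw [norm_mul]
        calc ‖∑ n ∈ Icc 1 N, f n‖ * ‖((((N + 1 : ℕ) : ℝ) ^ (-s) : ℝ) : ℂ)‖
            ≤ (C / N) * 1 := by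
              apply mul_le_mul (hS N hN) _ (norm_nonneg _) (by positivity)
              rw [Complex.norm_real, Real.norm_of_nonneg (by positivity)]
              exact Real.rpow_le_one_of_one_le_of_nonpos (by push_cast; linarith [Nat.cast_nonneg (α := ℝ) N]) (by linarith)
          _ = C / N := mul_one _
    · refine (norm_sum_le _ _).trans ?_
      calc ∑ n ∈ Icc 1 N, ‖(∑ m ∈ Icc 1 n, f m) * (((n : ℝ) ^ (-s) - ((n + 1 : ℕ) : ℝ) ^ (-s) : ℝ) : ℂ)‖
          ≤ ∑ n ∈ Icc 1 N, (C * s) * (1 / (n : ℝ) ^ 2) := by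
            apply Finset.sum_le_sum
            intro n hn
            have hn1 : 1 ≤ n := (mem_Icc.mp hn).1
            have hn0 : (0 : ℝ) < n := by exact_mod_cast hn1
            obtain ⟨h1, h2⟩ := rpow_diff hn1 hs
            rw [norm_mul, Complex.norm_real, Real.norm_of_nonneg h1]
            calc ‖∑ m ∈ Icc 1 n, f m‖ * ((n : ℝ) ^ (-s) - ((n + 1 : ℕ) : ℝ) ^ (-s))
                ≤ (C / n) * (s / n) := mul_le_mul (hS n hn1) h2 h1 (by positivity)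
              _ = _ := by field_simp
        _ = (C * s) * ∑ n ∈ Icc 1 N, (1 / (n : ℝ) ^ 2) := by rw [Finset.mul_sum]
        _ ≤ (C * s) * ∑' n : ℕ, 1 / (n : ℝ) ^ 2 := by
            apply mul_le_mul_of_nonneg_left _ (by positivity)
            exact hsq.sum_le_tsum _ (fun _ _ => by positivity)
        _ = _ := by ring
  have hlim2 : Tendsto (fun N : ℕ => C / (N : ℝ) + (C * ∑' n : ℕ, 1 / (n : ℝ) ^ 2) * s) atTop
      (𝓝 (0 + (C * ∑' n : ℕ, 1 / (n : ℝ) ^ 2) * s)) :=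
    (tendsto_const_div_atTop_nhds_zero_nat C).add tendsto_const_nhds
  rw [zero_add] at hlim2
  exact le_of_tendsto_of_tendsto hlim.norm hlim2 (Eventually.of_forall hbound)

/-- Lower bound for the local factor at a large prime. -/
theorem local_lower {p : ℝ} {κ κ' s : ℝ} (hκ0 : 0 ≤ κ) (hκκ' : κ < κ') (hκ'1 : κ' ≤ 1)
    (hs : 0 < s) (hp1 : 1 < p) (hp : 1 / p ≤ 1 - κ / κ') (g : ℕ → ℂ) (hg0 : g 0 = 1)
    (hg : ∀ k, 1 ≤ k → ‖g k‖ ≤ κ * (p ^ (-(1 + s))) ^ k) :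
    (1 - p ^ (-(1 + s))) ^ κ' ≤ ‖∑' k, g k‖ := by
  set u := p ^ (-(1 + s)) with hu
  have hp0 : 0 < p := by linarith
  have hu0 : 0 < u := Real.rpow_pos_of_pos hp0 _
  have hup : u ≤ 1 / p := by
    rw [hu, one_div, ← Real.rpow_neg_one]
    exact Real.rpow_le_rpow_of_exponent_le hp1.le (by linarith)
  have hκ'0 : 0 < κ' := lt_of_le_of_lt hκ0 hκκ'
  have hu1 : u < 1 := lt_of_le_of_lt hup (by rw [div_lt_one hp0]; exact hp1)
  have hu2 : κ ≤ κ' * (1 - u) := by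
    have h1 : u ≤ 1 - κ / κ' := hup.trans hp
    have h2 : κ / κ' ≤ 1 - u := by linarith
    rw [div_le_iff₀ hκ'0] at h2
    linarith
  have hgeo : Summable (fun k : ℕ => κ * u ^ (k + 1)) := by
    have := (summable_geometric_of_lt_one hu0.le hu1).mul_left (κ * u)
    refine this.congr (fun k => by rw [pow_succ]; ring)
  have hgs : Summable (fun k : ℕ => g (k + 1)) :=
    Summable.of_norm_bounded hgeo (fun k => hg (k + 1) (by omega))
  have hgs' : Summable g := (summable_nat_add_iff 1).mp hgs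
  have h1 : ∑' k, g k = 1 + ∑' k, g (k + 1) := by
    rw [hgs'.tsum_eq_zero_add, hg0]
  have h2 : ‖∑' k, g (k + 1)‖ ≤ κ * (u / (1 - u)) := by
    have h3 : HasSum (fun k : ℕ => κ * u ^ (k + 1)) (κ * (u / (1 - u))) := by
      have := (hasSum_geometric_of_lt_one hu0.le hu1).mul_left (κ * u)
      have h4 : κ * u * (1 - u)⁻¹ = κ * (u / (1 - u)) := by ring
      rw [h4] at this
      refine this.congr_fun ?_ |> fun h => h
      intro k; ring
    exact tsum_of_norm_bounded h3 (fun k => hg (k + 1) (by omega))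
  have h5 : κ * (u / (1 - u)) ≤ κ' * u := by
    have : 0 < 1 - u := by linarith
    rw [mul_div_assoc', div_le_iff₀ this]
    nlinarith
  have h6 : 1 - κ' * u ≤ ‖∑' k, g k‖ := by
    rw [h1]
    have := norm_sub_norm_le (1 : ℂ) (-(∑' k, g (k + 1)))
    rw [norm_one, norm_neg, sub_neg_eq_add] at this
    linarith
  refine le_trans ?_ h6
  have h7 := rpow_one_add_le_one_add_mul_self (s := -u) (by linarith) hκ'0.le hκ'1
  have h8 : 1 + -u = 1 - u := by ring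
  rw [h8] at h7
  linarith

end Pool.Agent.H383R3.MO
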