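import Mathlib
import Pool.Agent.H383R3.MOBasic

set_option autoImplicit false

namespace Pool.Agent.H383R3.MO

open Finset Filter Topology

/-- `ζ(1+s) ≤ 2/s` for small `s > 0`. -/
theorem zeta_upper : ∃ δ : ℝ, 0 < δ ∧ ∀ s : ℝ, 0 < s → s < δ →
    ∑' n : ℕ, (n : ℝ) ^ (-(1 + s)) ≤ 2 / s := by
  have h := tendsto_sub_mul_tsum_nat_rpow
  have h1 : ∀ᶠ x : ℝ in 𝓝[>] 1, (x - 1) * ∑' n : ℕ, 1 / (n : ℝ) ^ x < 2 :=
    h.eventually (gt_mem_nhds (by norm_num))
  rw [eventually_nhdsWithin_iff, Metric.eventually_nhds_iff] at h1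
  obtain ⟨δ, hδ, hh⟩ := h1
  refine ⟨δ, hδ, fun s hs hsδ => ?_⟩
  have h2 := hh (y := 1 + s) (by rw [Real.dist_eq]; rw [abs_of_pos] <;> linarith) (by
    simp only [Set.mem_Ioi]; linarith)
  rw [le_div_iff₀ hs]
  have h3 : (1 + s - 1) = s := by ring
  rw [h3] at h2
  have h4 : ∑' n : ℕ, 1 / (n : ℝ) ^ (1 + s) = ∑' n : ℕ, (n : ℝ) ^ (-(1 + s)) := by
    apply tsum_congr
    intro n
    rw [Real.rpow_neg (Nat.cast_nonneg n), one_div]
  rw [h4] at h2
  linarith

/-- The monoid hom `n ↦ n^{-(1+s)}`. -/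
noncomputable def powHom (s : ℝ) : ℕ →* ℝ where
  toFun n := (n : ℝ) ^ (-(1 + s))
  map_one' := by simp
  map_mul' m n := by
    push_cast
    exact Real.mul_rpow (Nat.cast_nonneg m) (Nat.cast_nonneg n)

theorem euler_lower {s : ℝ} (hs : 0 < s) (N P : ℕ) (Z : ℝ) (hZ : 0 < Z)
    (hzeta : ∑' n : ℕ, (n : ℝ) ^ (-(1 + s)) ≤ Z) :
    1 / Z ≤ ∏ p ∈ (Nat.primesBelow N).filter (fun p => P ≤ p), (1 - (p : ℝ) ^ (-(1 + s))) := by
  have hsum : Summable (powHom s) := by
    have : Summable (fun n : ℕ => (n : ℝ) ^ (-(1 + s))) :=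
      Real.summable_nat_rpow.mpr (by linarith)
    exact this
  set T : Finset ℕ := (Nat.primesBelow N).filter (fun p => P ≤ p) with hT
  have hTp : ∀ p ∈ T, p.Prime := fun p hp => Nat.prime_of_mem_primesBelow (mem_filter.mp hp).1
  have h1 := EulerProduct.prod_filter_prime_geometric_eq_tsum_factoredNumbers hsum T
  have hfilter : T.filter (fun p => p.Prime) = T := Finset.filter_true_of_mem hTp
  rw [hfilter] at h1
  have h2 : ∑' m : Nat.factoredNumbers T, powHom s m ≤ ∑' n : ℕ, powHom s n :=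
    Summable.tsum_subtype_le (fun n => powHom s n) _ (fun n => Real.rpow_nonneg (Nat.cast_nonneg n) _) hsum
  have h3 : ∏ p ∈ T, (1 - powHom s p)⁻¹ ≤ Z := by
    rw [h1]; exact h2.trans hzeta
  have hpos : ∀ p ∈ T, 0 < 1 - powHom s p := by
    intro p hp
    have h4 : (p : ℝ) ^ (-(1 + s)) < 1 :=
      Real.rpow_lt_one_of_one_lt_of_neg (by exact_mod_cast (hTp p hp).one_lt) (by linarith)
    have h5 : powHom s p = (p : ℝ) ^ (-(1 + s)) := rfl
    rw [h5]; linarith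
  have h6 : 0 < ∏ p ∈ T, (1 - powHom s p) := Finset.prod_pos hpos
  rw [Finset.prod_inv_distrib] at h3
  have h7 : 1 / Z ≤ ∏ p ∈ T, (1 - powHom s p) := by
    rw [one_div]
    exact inv_le_of_inv_le₀ h6 h3
  exact h7

/-- The main lower/upper bound contradiction: if `f` is multiplicative, all local sums are nonzero,
`‖S(n)‖ ≤ C/n` for all `n ≥ 1` and `‖f n‖ ≤ κ/n` for all large `n` with `κ < 1`, contradiction. -/
theorem main_false (f : ℕ → ℂ) (hf1 : f 1 = 1)
    (hmul : ∀ m n : ℕ, 0 < m → 0 < n → Nat.Coprime m n → f (m * n) = f m * f n)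
    (hloc : ∀ p : ℕ, p.Prime → ∃ c : ℂ, c ≠ 0 ∧
      Tendsto (fun K : ℕ => ∑ k ∈ range K, f (p ^ k)) atTop (𝓝 c))
    (C : ℝ) (hC : 0 ≤ C) (hS : ∀ n : ℕ, 1 ≤ n → ‖∑ m ∈ Icc 1 n, f m‖ ≤ C / n)
    (hfC : ∀ n : ℕ, 1 ≤ n → ‖f n‖ ≤ C / n)
    (κ : ℝ) (hκ0 : 0 ≤ κ) (hκ1 : κ < 1) (N₀ : ℕ) (hκ : ∀ n : ℕ, N₀ ≤ n → ‖f n‖ ≤ κ / n) :
    False := by
  -- twisted function
  set F : ℝ → ℕ → ℂ := fun s n => f n * (((n : ℝ) ^ (-s) : ℝ) : ℂ) with hF
  have hFnorm : ∀ s : ℝ, 0 < s → ∀ n : ℕ, ‖F s n‖ ≤ C * (n : ℝ) ^ (-(1 + s)) := by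
    intro s hs n
    rcases Nat.eq_zero_or_pos n with rfl | hn
    · simp only [hF, Nat.cast_zero]
      rw [Real.zero_rpow (by linarith), Real.zero_rpow (by linarith)]; simp
    · have hn0 : (0 : ℝ) < n := by exact_mod_cast hn
      simp only [hF]
      rw [norm_mul, Complex.norm_real, Real.norm_of_nonneg (by positivity)]
      have h1 : (n : ℝ) ^ (-(1 + s)) = (1 / n) * (n : ℝ) ^ (-s) := by
        rw [neg_add, Real.rpow_add hn0, Real.rpow_neg_one, one_div]
      rw [h1, ← mul_assoc, mul_one_div]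
      exact mul_le_mul_of_nonneg_right (hfC n hn) (by positivity)
  have hFsum : ∀ s : ℝ, 0 < s → Summable (fun n => ‖F s n‖) := by
    intro s hs
    refine Summable.of_nonneg_of_le (fun _ => norm_nonneg _) (hFnorm s hs) ?_
    exact (Real.summable_nat_rpow.mpr (by linarith)).mul_left C
  have hF0 : ∀ s : ℝ, 0 < s → F s 0 = 0 := by
    intro s hs
    simp only [hF, Nat.cast_zero]
    rw [Real.zero_rpow (by linarith)]; simp
  have hF1 : ∀ s : ℝ, F s 1 = 1 := by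
    intro s; simp [hF, hf1]
  have hFmul : ∀ s : ℝ, 0 < s → ∀ {m n : ℕ}, Nat.Coprime m n → F s (m * n) = F s m * F s n := by
    intro s hs m n hmn
    rcases Nat.eq_zero_or_pos m with rfl | hm
    · rw [Nat.zero_mul, hF0 s hs, zero_mul]
    rcases Nat.eq_zero_or_pos n with rfl | hn
    · rw [Nat.mul_zero, hF0 s hs, mul_zero]
    simp only [hF]
    rw [hmul m n hm hn hmn]
    push_cast
    rw [Real.mul_rpow (Nat.cast_nonneg m) (Nat.cast_nonneg n)]
    push_cast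
    ring
  have hEuler : ∀ s : ℝ, 0 < s → Tendsto (fun N : ℕ => ∏ p ∈ Nat.primesBelow N, ∑' e, F s (p ^ e))
      atTop (𝓝 (∑' n, F s n)) := fun s hs =>
    EulerProduct.eulerProduct (hF1 s) (hFmul s hs) (hFsum s hs) (hF0 s hs)
  -- choose κ' and P
  obtain ⟨κ', hκκ', hκ'1⟩ := exists_between hκ1
  have hκ'0 : 0 < κ' := lt_of_le_of_lt hκ0 hκκ'
  have hgap : 0 < 1 - κ / κ' := by
    have : κ / κ' < 1 := by rw [div_lt_one hκ'0]; exact hκκ'
    linarith
  obtain ⟨P, hP⟩ : ∃ P : ℕ, N₀ ≤ P ∧ 2 ≤ P ∧ 1 / (P : ℝ) ≤ 1 - κ / κ' := by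
    obtain ⟨P₁, hP₁⟩ := exists_nat_ge (1 / (1 - κ / κ'))
    refine ⟨max (max N₀ 2) P₁, le_trans (le_max_left _ _) (le_max_left _ _),
      le_trans (le_max_right _ _) (le_max_left _ _), ?_⟩
    have h1 : (1 / (1 - κ / κ')) ≤ ((max (max N₀ 2) P₁ : ℕ) : ℝ) :=
      hP₁.trans (by exact_mod_cast le_max_right _ _)
    have h2 : 0 < 1 / (1 - κ / κ') := by positivity
    calc 1 / ((max (max N₀ 2) P₁ : ℕ) : ℝ) ≤ 1 / (1 / (1 - κ / κ')) :=
          one_div_le_one_div_of_le h2 h1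
      _ = 1 - κ / κ' := one_div_one_div _
  obtain ⟨hPN, hP2, hPκ⟩ := hP
  -- local lower bounds for large primes
  have hlarge : ∀ s : ℝ, 0 < s → ∀ p : ℕ, p.Prime → P ≤ p →
      (1 - (p : ℝ) ^ (-(1 + s))) ^ κ' ≤ ‖∑' e, F s (p ^ e)‖ := by
    intro s hs p hp hPp
    have hp1 : (1 : ℝ) < p := by exact_mod_cast hp.one_lt
    have hpP : 1 / (p : ℝ) ≤ 1 - κ / κ' := by
      refine le_trans ?_ hPκ
      apply one_div_le_one_div_of_le
      · exact_mod_cast (by omega : 0 < P)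
      · exact_mod_cast hPp
    refine local_lower hκ0 hκκ' hκ'1.le hs hp1 hpP (fun e => F s (p ^ e)) (by simp [hF1]) ?_
    intro k hk
    have hpk : 0 < p ^ k := pow_pos hp.pos k
    have hpk' : (0 : ℝ) < ((p ^ k : ℕ) : ℝ) := by exact_mod_cast hpk
    have hge : N₀ ≤ p ^ k := by
      calc N₀ ≤ P := hPN
        _ ≤ p := hPp
        _ = p ^ 1 := (pow_one p).symm
        _ ≤ p ^ k := Nat.pow_le_pow_right hp.pos hk
    simp only [hF]
    rw [norm_mul, Complex.norm_real, Real.norm_of_nonneg (by positivity)]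
    have h1 : ((p : ℝ) ^ (-(1 + s))) ^ k = (1 / ((p ^ k : ℕ) : ℝ)) * ((p ^ k : ℕ) : ℝ) ^ (-s) := by
      have h2 : ((p ^ k : ℕ) : ℝ) ^ (-(1 + s)) = (1 / ((p ^ k : ℕ) : ℝ)) * ((p ^ k : ℕ) : ℝ) ^ (-s) := by
        rw [neg_add, Real.rpow_add hpk', Real.rpow_neg_one, one_div]
      rw [← h2]
      push_cast
      rw [← Real.rpow_natCast ((p : ℝ) ^ (-(1 + s))) k, ← Real.rpow_mul (by positivity),
        ← Real.rpow_natCast (p : ℝ) k, ← Real.rpow_mul (by positivity)]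
      congr 1; ring
    rw [h1, ← mul_assoc, mul_one_div]
    exact mul_le_mul_of_nonneg_right (hκ _ hge) (by positivity)
  -- local limits for small primes
  have hsmall : ∀ p : ℕ, p.Prime → ∃ c : ℂ, c ≠ 0 ∧
      Tendsto (fun s : ℝ => ∑' e, F s (p ^ e)) (𝓝[>] 0) (𝓝 c) := by
    intro p hp
    obtain ⟨c, hc, hlim⟩ := hloc p hp
    refine ⟨c, hc, ?_⟩
    have hp1 : (1 : ℝ) < p := by exact_mod_cast hp.one_lt
    have hbd : Summable (fun k : ℕ => C * (1 / (p : ℝ)) ^ k) :=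
      (summable_geometric_of_lt_one (by positivity) (by rw [div_lt_one (by linarith)]; exact hp1)).mul_left C
    have hnorm : ∀ k : ℕ, ‖f (p ^ k)‖ ≤ C * (1 / (p : ℝ)) ^ k := by
      intro k
      have := hfC (p ^ k) (Nat.one_le_iff_ne_zero.mpr (pow_pos hp.pos k).ne')
      refine this.trans (le_of_eq ?_)
      push_cast
      rw [one_div, inv_pow]; rfl
    have hsumm : Summable (fun k : ℕ => f (p ^ k)) := Summable.of_norm_bounded hbd hnorm
    have hceq : ∑' k, f (p ^ k) = c :=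
      tendsto_nhds_unique hsumm.hasSum.tendsto_sum_nat hlim
    rw [← hceq]
    refine tendsto_tsum_of_dominated_convergence hbd ?_ ?_
    · intro k
      have hpk : (0 : ℝ) < ((p ^ k : ℕ) : ℝ) := by exact_mod_cast pow_pos hp.pos k
      have h1 : Tendsto (fun s : ℝ => (((p ^ k : ℕ) : ℝ) ^ (-s) : ℝ)) (𝓝[>] 0) (𝓝 1) := by
        have h2 : Continuous (fun s : ℝ => ((p ^ k : ℕ) : ℝ) ^ (-s)) := by
          refine Continuous.rpow continuous_const continuous_neg ?_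
          intro x; exact Or.inl hpk.ne'
        have h3 := h2.tendsto 0
        simp only [neg_zero, Real.rpow_zero] at h3
        exact h3.mono_left nhdsWithin_le_nhds
      have h4 : Tendsto (fun s : ℝ => f (p ^ k) * (((((p ^ k : ℕ) : ℝ) ^ (-s) : ℝ)) : ℂ)) (𝓝[>] 0)
          (𝓝 (f (p ^ k) * ((1 : ℝ) : ℂ))) :=
        tendsto_const_nhds.mul ((Complex.continuous_ofReal.tendsto 1).comp h1)
      have h5 : f (p ^ k) * ((1 : ℝ) : ℂ) = f (p ^ k) := by simp
      rw [h5] at h4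
      exact h4
    · filter_upwards [self_mem_nhdsWithin] with s hs k
      have hs' : (0 : ℝ) < s := hs
      refine le_trans ?_ (hnorm k)
      simp only [hF]
      rw [norm_mul, Complex.norm_real, Real.norm_of_nonneg (by positivity)]
      have h1 : (((p ^ k : ℕ) : ℝ)) ^ (-s) ≤ 1 := by
        apply Real.rpow_le_one_of_one_le_of_nonpos
        · exact_mod_cast Nat.one_le_iff_ne_zero.mpr (pow_pos hp.pos k).ne'
        · linarith
      calc ‖f (p ^ k)‖ * ((p ^ k : ℕ) : ℝ) ^ (-s) ≤ ‖f (p ^ k)‖ * 1 :=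
            mul_le_mul_of_nonneg_left h1 (norm_nonneg _)
        _ = _ := mul_one _
  -- product over small primes
  obtain ⟨A, hA, hAev⟩ : ∃ A : ℝ, 0 < A ∧ ∀ᶠ s : ℝ in 𝓝[>] 0,
      A ≤ ∏ p ∈ Nat.primesBelow P, ‖∑' e, F s (p ^ e)‖ := by
    choose! c hc hclim using hsmall
    have h1 : Tendsto (fun s : ℝ => ∏ p ∈ Nat.primesBelow P, ‖∑' e, F s (p ^ e)‖) (𝓝[>] 0)
        (𝓝 (∏ p ∈ Nat.primesBelow P, ‖c p‖)) := by
      apply tendsto_finsetProd
      intro p hp
      exact (hclim p (Nat.prime_of_mem_primesBelow hp)).norm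
    have h2 : 0 < ∏ p ∈ Nat.primesBelow P, ‖c p‖ := by
      apply Finset.prod_pos
      intro p hp
      exact norm_pos_iff.mpr (hc p (Nat.prime_of_mem_primesBelow hp))
    refine ⟨(∏ p ∈ Nat.primesBelow P, ‖c p‖) / 2, by positivity, ?_⟩
    have h3 := h1.eventually (lt_mem_nhds (half_lt_self h2))
    exact h3.mono (fun s hs => hs.le)
  obtain ⟨δ, hδ, hzeta⟩ := zeta_upper
  have hev : ∀ᶠ s : ℝ in 𝓝[>] 0, A * (s / 2) ^ κ' ≤ (C * ∑' n : ℕ, 1 / (n : ℝ) ^ 2) * s := by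
    have hδev : ∀ᶠ s : ℝ in 𝓝[>] 0, s < δ :=
      (eventually_lt_nhds hδ).filter_mono nhdsWithin_le_nhds
    filter_upwards [hAev, hδev, self_mem_nhdsWithin] with s hs1 hs2 hs3
    have hs0 : (0 : ℝ) < s := hs3
    have hup := upper f C hC hS hs0 ((hFsum s hs0).of_norm)
    refine le_trans ?_ hup
    -- lower bound through the Euler product
    refine ge_of_tendsto (hEuler s hs0).norm ?_
    filter_upwards [eventually_ge_atTop P] with N hN
    rw [norm_prod]
    have hsplit : ∏ p ∈ Nat.primesBelow N, ‖∑' e, F s (p ^ e)‖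
        = (∏ p ∈ Nat.primesBelow P, ‖∑' e, F s (p ^ e)‖) *
          ∏ p ∈ (Nat.primesBelow N).filter (fun p => P ≤ p), ‖∑' e, F s (p ^ e)‖ := by
      rw [← Finset.prod_filter_not_mul_prod_filter (Nat.primesBelow N) (fun p => P ≤ p)]
      congr 1
      apply Finset.prod_congr _ (fun _ _ => rfl)
      ext p
      simp only [mem_filter, Nat.mem_primesBelow, not_le]
      constructor
      · rintro ⟨⟨h1, h2⟩, h3⟩; exact ⟨h3, h2⟩
      · rintro ⟨h1, h2⟩; exact ⟨⟨by omega, h2⟩, h1⟩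
    rw [hsplit]
    have hz := euler_lower hs0 N P (2 / s) (by positivity) (hzeta s hs0 hs2)
    have h1 : (s / 2) ^ κ' ≤ ∏ p ∈ (Nat.primesBelow N).filter (fun p => P ≤ p), ‖∑' e, F s (p ^ e)‖ := by
      calc (s / 2) ^ κ' = (1 / (2 / s)) ^ κ' := by rw [one_div_div]
        _ ≤ (∏ p ∈ (Nat.primesBelow N).filter (fun p => P ≤ p), (1 - (p : ℝ) ^ (-(1 + s)))) ^ κ' :=
            Real.rpow_le_rpow (by positivity) hz hκ'0.le
        _ = ∏ p ∈ (Nat.primesBelow N).filter (fun p => P ≤ p), (1 - (p : ℝ) ^ (-(1 + s))) ^ κ' := by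
            rw [← Real.finsetProd_rpow]
            intro p hp
            have hpp := Nat.prime_of_mem_primesBelow (mem_filter.mp hp).1
            have : (p : ℝ) ^ (-(1 + s)) < 1 :=
              Real.rpow_lt_one_of_one_lt_of_neg (by exact_mod_cast hpp.one_lt) (by linarith)
            linarith
        _ ≤ _ := by
            apply Finset.prod_le_prod
            · intro p hp
              have hpp := Nat.prime_of_mem_primesBelow (mem_filter.mp hp).1
              have : (p : ℝ) ^ (-(1 + s)) < 1 :=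
                Real.rpow_lt_one_of_one_lt_of_neg (by exact_mod_cast hpp.one_lt) (by linarith)
              exact Real.rpow_nonneg (by linarith) _
            · intro p hp
              exact hlarge s hs0 p (Nat.prime_of_mem_primesBelow (mem_filter.mp hp).1) (mem_filter.mp hp).2
    exact mul_le_mul hs1 h1 (by positivity) (le_trans hA.le hs1)
  -- contradiction as s → 0
  set B := C * ∑' n : ℕ, 1 / (n : ℝ) ^ 2 with hB
  have hB0 : 0 ≤ B := mul_nonneg hC (tsum_nonneg (fun n => by positivity))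
  have hlim : Tendsto (fun s : ℝ => B * s ^ (1 - κ')) (𝓝[>] 0) (𝓝 0) := by
    have h1 : Tendsto (fun s : ℝ => s ^ (1 - κ')) (𝓝[>] 0) (𝓝 0) := by
      have h2 : ContinuousAt (fun s : ℝ => s ^ (1 - κ')) 0 :=
        Real.continuousAt_rpow_const 0 (1 - κ') (Or.inr (by linarith))
      have h3 := h2.tendsto
      rw [Real.zero_rpow (by linarith)] at h3
      exact h3.mono_left nhdsWithin_le_nhds
    simpa using h1.const_mul B
  have hA2 : 0 < A / 2 ^ κ' := by positivity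
  have hev2 : ∀ᶠ s : ℝ in 𝓝[>] 0, B * s ^ (1 - κ') < A / 2 ^ κ' := hlim.eventually (gt_mem_nhds hA2)
  have hev3 : ∀ᶠ s : ℝ in 𝓝[>] (0 : ℝ), False := by
    filter_upwards [hev, hev2, self_mem_nhdsWithin] with s h1 h2 h3
    have hs0 : (0 : ℝ) < s := h3
    rw [Real.div_rpow hs0.le (by norm_num)] at h1
    have h4 : s = s ^ (1 - κ') * s ^ κ' := by
      rw [← Real.rpow_add hs0]; simp
    have h5 : 0 < s ^ κ' := Real.rpow_pos_of_pos hs0 _
    have h6 : A / 2 ^ κ' * s ^ κ' ≤ (B * s ^ (1 - κ')) * s ^ κ' := by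
      calc A / 2 ^ κ' * s ^ κ' = A * (s ^ κ' / 2 ^ κ') := by ring
        _ ≤ B * s := h1
        _ = (B * s ^ (1 - κ')) * s ^ κ' := by rw [mul_assoc B, ← h4]
    have h7 := le_of_mul_le_mul_right h6 h5
    linarith
  exact absurd hev3.exists (by simp)

end Pool.Agent.H383R3.MO
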