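import Mathlib

set_option autoImplicit false

namespace Pool.Agent.H383R3.MulClose

open Finset

/-- Key construction: for coprime positive integers `p, q` there are arbitrarily long sequences
`z 0, …, z K` of positive integers coprime to `p` such that, for `i < j`, the number
`D = p^(j-i) z_j - q^(j-i) z_i` is positive, divides `z_i`, and the quotient is as large as we like. -/
theorem key (p q : ℤ) (hp : 0 < p) (hq : 0 < q) (hcop : IsCoprime p q) (W : ℤ) (K : ℕ) :
    ∃ z : ℕ → ℤ, (∀ i, i ≤ K → 0 < z i ∧ IsCoprime (z i) p) ∧
      ∀ i j, i < j → j ≤ K → 0 < p ^ (j - i) * z j - q ^ (j - i) * z i ∧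
        ∃ w, z i = (p ^ (j - i) * z j - q ^ (j - i) * z i) * w ∧ W ≤ w := by
  induction K with
  | zero =>
    refine ⟨fun _ => 1, fun i _ => ⟨one_pos, isCoprime_one_left⟩, fun i j hij hj => ?_⟩
    omega
  | succ K ih =>
    obtain ⟨z, hz1, hz2⟩ := ih
    set P : ℤ := ∏ l ∈ range (K + 1), z l with hP
    have hPpos : 0 < P := by
      apply Finset.prod_pos
      intro i hi
      exact (hz1 i (Nat.lt_succ_iff.mp (mem_range.mp hi))).1
    have hPcop : IsCoprime P p := by
      apply IsCoprime.prod_left
      intro i hi
      exact (hz1 i (Nat.lt_succ_iff.mp (mem_range.mp hi))).2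
    set E : ℕ → ℤ := fun i => p ^ (i + 1) * z i + q ^ (i + 1) * P with hE
    have hEpos : ∀ i, i ≤ K → 0 < E i := by
      intro i hi
      have := (hz1 i hi).1
      simp only [hE]
      positivity
    have hEcop : ∀ i, i ≤ K → IsCoprime (E i) p := by
      intro i hi
      have h1 : IsCoprime (q ^ (i + 1) * P) p :=
        IsCoprime.mul_left (IsCoprime.pow_left hcop.symm) hPcop
      have h2 : E i = q ^ (i + 1) * P + p * (p ^ i * z i) := by
        simp only [hE]; ring
      rw [h2]
      exact IsCoprime.add_mul_left_left h1 _
    set M : ℤ := ∏ i ∈ range (K + 1), E i with hM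
    have hMpos : 0 < M := by
      apply Finset.prod_pos
      intro i hi
      exact hEpos i (Nat.lt_succ_iff.mp (mem_range.mp hi))
    have hMcop : IsCoprime M p := by
      apply IsCoprime.prod_left
      intro i hi
      exact hEcop i (Nat.lt_succ_iff.mp (mem_range.mp hi))
    have hMcop' : IsCoprime M (p ^ (K + 2)) := IsCoprime.pow_right hMcop
    obtain ⟨u, v, huv⟩ := hMcop'
    -- u * M + v * p^(K+2) = 1, take T = v + k * M
    obtain ⟨T, c, hTpos, hTc, hcW⟩ : ∃ T c : ℤ, 0 < T ∧ p ^ (K + 2) * T - 1 = M * c ∧ max W 1 ≤ c := by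
      refine ⟨v + (|v| + |u| + |W| + 1) * M, -u + (|v| + |u| + |W| + 1) * p ^ (K + 2), ?_, ?_, ?_⟩
      · have h1 : -|v| ≤ v := neg_abs_le v
        have h2 : (|v| + |u| + |W| + 1) * 1 ≤ (|v| + |u| + |W| + 1) * M :=
          mul_le_mul_of_nonneg_left (by omega) (by positivity)
        have h3 := abs_nonneg u
        have h4 := abs_nonneg W
        linarith
      · linear_combination huv
      · have hpk : 1 ≤ p ^ (K + 2) := by
          have : 0 < p ^ (K + 2) := by positivity
          omega
        have h2 : (|v| + |u| + |W| + 1) * 1 ≤ (|v| + |u| + |W| + 1) * p ^ (K + 2) :=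
          mul_le_mul_of_nonneg_left hpk (by positivity)
        have h3 := neg_abs_le u
        have h3' := le_abs_self u
        have h4 := le_abs_self W
        have h5 := abs_nonneg v
        have h6 := abs_nonneg W
        have h7 := abs_nonneg u
        apply max_le <;> linarith
    have hcpos : 0 < c := lt_of_lt_of_le one_pos (le_trans (le_max_right _ _) hcW)
    have hcW' : W ≤ c := le_trans (le_max_left _ _) hcW
    refine ⟨fun n => if n = 0 then P * (p ^ (K + 2) * T - 1)
      else z (n - 1) + p ^ (K + 1 - (n - 1)) * q ^ n * T * P, ?_, ?_⟩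
    · intro i hi
      rcases Nat.eq_zero_or_pos i with rfl | hi0
      · simp only [if_true]
        constructor
        · rw [hTc]; positivity
        · apply IsCoprime.mul_left hPcop
          have : p ^ (K + 2) * T - 1 = -1 + p * (p ^ (K + 1) * T) := by ring
          rw [this]
          exact IsCoprime.add_mul_left_left (by simpa using (isCoprime_one_left (R := ℤ)).neg_left) _
      · have hne : i ≠ 0 := by omega
        simp only [hne, if_false]
        obtain ⟨h1, h2⟩ := hz1 (i - 1) (by omega)
        constructor
        · positivity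
        · have h3 : K + 1 - (i - 1) = (K + 1 - i) + 1 := by omega
          have : z (i - 1) + p ^ (K + 1 - (i - 1)) * q ^ i * T * P
              = z (i - 1) + p * (p ^ (K + 1 - i) * q ^ i * T * P) := by
            rw [h3]; ring
          rw [this]
          exact IsCoprime.add_mul_left_left h2 _
    · intro i j hij hj
      have hj0 : j ≠ 0 := by omega
      rcases Nat.eq_zero_or_pos i with rfl | hi0
      · -- i = 0
        simp only [hj0, if_true, if_false, Nat.sub_zero]
        obtain ⟨m, rfl⟩ : ∃ m, j = m + 1 := ⟨j - 1, by omega⟩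
        have hm : m ≤ K := by omega
        have hD : p ^ (m + 1) * (z (m + 1 - 1) + p ^ (K + 1 - (m + 1 - 1)) * q ^ (m + 1) * T * P) -
            q ^ (m + 1) * (P * (p ^ (K + 2) * T - 1)) = E m := by
          have h3 : m + 1 - 1 = m := by omega
          rw [h3]
          have h4 : p ^ (K + 2) = p ^ (m + 1) * p ^ (K + 1 - m) := by
            rw [← pow_add]; congr 1; omega
          rw [h4]
          simp only [hE]
          ring
        rw [hD]
        refine ⟨hEpos m hm, ?_⟩
        have hmem : m ∈ range (K + 1) := mem_range.mpr (by omega)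
        have hsplit : M = E m * ∏ i ∈ (range (K + 1)).erase m, E i := by
          rw [hM, ← Finset.mul_prod_erase _ _ hmem]
        have hrest : 0 < ∏ i ∈ (range (K + 1)).erase m, E i := by
          apply Finset.prod_pos
          intro i hi
          exact hEpos i (Nat.lt_succ_iff.mp (mem_range.mp (Finset.mem_of_mem_erase hi)))
        refine ⟨P * (∏ i ∈ (range (K + 1)).erase m, E i) * c, ?_, ?_⟩
        · rw [hTc, hsplit]; ring
        · have h5 : 1 ≤ P * ∏ i ∈ (range (K + 1)).erase m, E i := by
            have : 0 < P * ∏ i ∈ (range (K + 1)).erase m, E i := by positivity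
            omega
          calc W ≤ c := hcW'
            _ = 1 * c := (one_mul c).symm
            _ ≤ _ := mul_le_mul_of_nonneg_right h5 hcpos.le
      · have hi : i ≠ 0 := by omega
        simp only [hj0, hi, if_false]
        obtain ⟨m, rfl⟩ : ∃ m, i = m + 1 := ⟨i - 1, by omega⟩
        obtain ⟨n, rfl⟩ : ∃ n, j = n + 1 := ⟨j - 1, by omega⟩
        have hmn : m < n := by omega
        have hn : n ≤ K := by omega
        obtain ⟨h1, w, h2, h3⟩ := hz2 m n hmn hn
        have hs : n + 1 - (m + 1) = n - m := by omega
        have hs1 : m + 1 - 1 = m := by omega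
        have hs2 : n + 1 - 1 = n := by omega
        rw [hs, hs1, hs2]
        have hD : p ^ (n - m) * (z n + p ^ (K + 1 - n) * q ^ (n + 1) * T * P) -
            q ^ (n - m) * (z m + p ^ (K + 1 - m) * q ^ (m + 1) * T * P)
            = p ^ (n - m) * z n - q ^ (n - m) * z m := by
          have h4 : p ^ (K + 1 - m) = p ^ (n - m) * p ^ (K + 1 - n) := by
            rw [← pow_add]; congr 1; omega
          have h5 : q ^ (n + 1) = q ^ (n - m) * q ^ (m + 1) := by
            rw [← pow_add]; congr 1; omega
          rw [h4, h5]; ring
        rw [hD]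
        refine ⟨h1, ?_⟩
        have hmem : m ∈ range (K + 1) := mem_range.mpr (by omega)
        have hsplit : P = z m * ∏ i ∈ (range (K + 1)).erase m, z i := by
          rw [hP, ← Finset.mul_prod_erase _ _ hmem]
        have hzm : 0 < z m := (hz1 m (by omega)).1
        have hrest : 0 < ∏ i ∈ (range (K + 1)).erase m, z i := by
          apply Finset.prod_pos
          intro i hi
          exact (hz1 i (Nat.lt_succ_iff.mp (mem_range.mp (Finset.mem_of_mem_erase hi)))).1
        set D := p ^ (n - m) * z n - q ^ (n - m) * z m with hDdef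
        have hwpos : 0 < w := by
          by_contra hcon
          have : D * w ≤ 0 := mul_nonpos_of_nonneg_of_nonpos h1.le (not_lt.mp hcon)
          omega
        refine ⟨w + p ^ (K + 1 - m) * q ^ (m + 1) * T * (w * ∏ i ∈ (range (K + 1)).erase m, z i), ?_, ?_⟩
        · calc z m + p ^ (K + 1 - m) * q ^ (m + 1) * T * P
              = z m + p ^ (K + 1 - m) * q ^ (m + 1) * T *
                  (z m * ∏ i ∈ (range (K + 1)).erase m, z i) := by rw [← hsplit]
            _ = _ := by rw [h2]; ring
        · have : 0 ≤ p ^ (K + 1 - m) * q ^ (m + 1) * T * (w * ∏ i ∈ (range (K + 1)).erase m, z i) := by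
            positivity
          linarith

end Pool.Agent.H383R3.MulClose
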