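import Mathlib
import Pool.Agent.H383R3.MulClose

set_option autoImplicit false

namespace Pool.Agent.H383R3.MulClose

open Finset

/-- Decomposition `a = p q` with `p ∣ b`, `q ∣ d`, `p, q` coprime. -/
theorem decomp (a b d : ℤ) (ha : 0 < a) (hg : IsCoprime (gcd a b) d) (hdvd : a ∣ b * d) :
    ∃ p q : ℤ, 0 < p ∧ 0 < q ∧ IsCoprime p q ∧ p ∣ b ∧ q ∣ d ∧ a ∣ p * q ∧ p * q ∣ a := by
  have h1 : a ∣ gcd a b * d := dvd_gcd_mul_of_dvd_mul hdvd
  have h2 : a ∣ gcd a b * gcd a d := dvd_mul_gcd_of_dvd_mul h1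
  refine ⟨gcd a b, gcd a d, ?_, ?_, ?_, gcd_dvd_right _ _, gcd_dvd_right _ _, h2, ?_⟩
  · have h1 : (gcd a b : ℤ) ≠ 0 := by
      intro h
      rw [_root_.gcd_eq_zero_iff] at h
      omega
    have h2 : 0 ≤ (gcd a b : ℤ) := by
      rw [← Int.coe_gcd]; exact Int.natCast_nonneg _
    omega
  · have h1 : (gcd a d : ℤ) ≠ 0 := by
      intro h
      rw [_root_.gcd_eq_zero_iff] at h
      omega
    have h2 : 0 ≤ (gcd a d : ℤ) := by
      rw [← Int.coe_gcd]; exact Int.natCast_nonneg _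
    omega
  · exact IsCoprime.of_isCoprime_of_dvd_right hg (gcd_dvd_right _ _)
  · have hc : IsCoprime (gcd a b) (gcd a d) :=
      IsCoprime.of_isCoprime_of_dvd_right hg (gcd_dvd_right _ _)
    exact hc.mul_dvd (gcd_dvd_left _ _) (gcd_dvd_left _ _)

/-- The sequences `X`: all pairs have ratio `(a n + b) / (a n + d)` with `n` large. -/
theorem seq (a b d : ℤ) (ha : 0 < a) (hbd : d < b) (hg : IsCoprime (gcd a b) d) (hdvd : a ∣ b * d)
    (N : ℤ) (K : ℕ) :
    ∃ X : ℕ → ℤ, (∀ i, i ≤ K → 0 < X i) ∧ ∀ i j, i < j → j ≤ K → 0 < X j - X i ∧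
      ∃ n : ℤ, N ≤ n ∧ (b - d) * X i = (X j - X i) * (a * n + d) ∧
        (b - d) * X j = (X j - X i) * (a * n + b) := by
  obtain ⟨p, q, hp, hq, hpq, hpb, hqd, hapq, hpqa⟩ := decomp a b d ha hg hdvd
  obtain ⟨z, hz1, hz2⟩ := key p q hp hq hpq (|a * N| + |d|) K
  refine ⟨fun i => p ^ i * q ^ (K - i) * z i, ?_, ?_⟩
  · intro i hi
    have := (hz1 i hi).1
    positivity
  · intro i j hij hj
    obtain ⟨hD, w, hw, hW⟩ := hz2 i j hij hj
    set D := p ^ (j - i) * z j - q ^ (j - i) * z i with hDdef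
    have hdiff : p ^ j * q ^ (K - j) * z j - p ^ i * q ^ (K - i) * z i
        = p ^ i * q ^ (K - j) * D := by
      have h1 : p ^ j = p ^ i * p ^ (j - i) := by rw [← pow_add]; congr 1; omega
      have h2 : q ^ (K - i) = q ^ (K - j) * q ^ (j - i) := by rw [← pow_add]; congr 1; omega
      rw [h1, h2, hDdef]; ring
    -- the congruence
    have hzi := hz1 i (by omega)
    have hDp : IsCoprime D p := IsCoprime.of_isCoprime_of_dvd_left hzi.2 ⟨w, hw⟩
    have hpw : p ∣ q ^ (j - i) * w + 1 := by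
      have h3 : p ∣ D * (q ^ (j - i) * w + 1) := by
        have h4 : D * (q ^ (j - i) * w + 1) = p ^ (j - i) * z j := by
          calc D * (q ^ (j - i) * w + 1) = q ^ (j - i) * (D * w) + D := by ring
            _ = q ^ (j - i) * z i + D := by rw [← hw]
            _ = p ^ (j - i) * z j := by rw [hDdef]; ring
        rw [h4]
        exact Dvd.dvd.mul_right (dvd_pow_self p (by omega)) _
      exact hDp.symm.dvd_of_dvd_mul_left h3
    have hcong : a ∣ (b - d) * (q ^ (j - i) * w) - d := by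
      refine hapq.trans (hpq.mul_dvd ?_ ?_)
      · have : (b - d) * (q ^ (j - i) * w) - d = (b - d) * (q ^ (j - i) * w + 1) - b := by ring
        rw [this]
        exact dvd_sub (Dvd.dvd.mul_left hpw _) hpb
      · have h5 : q ∣ q ^ (j - i) * w := Dvd.dvd.mul_right (dvd_pow_self q (by omega)) _
        exact dvd_sub (Dvd.dvd.mul_left h5 _) hqd
    obtain ⟨n, hn⟩ := hcong
    have hX : (b - d) * (q ^ (j - i) * w) = a * n + d := by linarith
    have hposD : 0 < p ^ i * q ^ (K - j) * D := by positivity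
    refine ⟨by rw [hdiff]; exact hposD, n, ?_, ?_, ?_⟩
    · -- size
      by_contra hcon
      have h6 : n + 1 ≤ N := by omega
      have h7 : a * n + a ≤ a * N := by nlinarith
      have hwpos : 0 ≤ w := le_trans (by positivity) hW
      have h8 : w ≤ (b - d) * (q ^ (j - i) * w) := by
        have h9 : 1 ≤ (b - d) * q ^ (j - i) := by
          have : 0 < (b - d) * q ^ (j - i) := by
            have : 0 < b - d := by omega
            positivity
          omega
        calc w = 1 * w := (one_mul w).symm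
          _ ≤ ((b - d) * q ^ (j - i)) * w := mul_le_mul_of_nonneg_right h9 hwpos
          _ = _ := by ring
      have h10 := le_abs_self (a * N)
      have h11 := le_abs_self d
      linarith
    · have h2 : q ^ (K - i) = q ^ (K - j) * q ^ (j - i) := by rw [← pow_add]; congr 1; omega
      have h12 : (b - d) * (p ^ i * q ^ (K - i) * z i)
          = p ^ i * q ^ (K - j) * D * ((b - d) * (q ^ (j - i) * w)) := by
        rw [h2, hw]; ring
      simp only
      rw [hdiff, h12, hX]
    · have h2 : q ^ (K - i) = q ^ (K - j) * q ^ (j - i) := by rw [← pow_add]; congr 1; omega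
      have h12 : (b - d) * (p ^ i * q ^ (K - i) * z i)
          = p ^ i * q ^ (K - j) * D * ((b - d) * (q ^ (j - i) * w)) := by
        rw [h2, hw]; ring
      have h13 : (b - d) * (p ^ j * q ^ (K - j) * z j)
          = (b - d) * (p ^ i * q ^ (K - i) * z i) + (b - d) * (p ^ i * q ^ (K - j) * D) := by
        rw [← hdiff]; ring
      simp only
      rw [hdiff, h13, h12, hX]; ring

/-- Pigeonhole: among enough points of the product of unit discs, two are close. -/
theorem pigeon (ℓ : ℕ) (δ : ℝ) (hδ : 0 < δ) :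
    ∃ K : ℕ, ∀ v : ℕ → Fin ℓ → ℂ, (∀ i j, ‖v i j‖ ≤ 1) →
      ∃ i j, i < j ∧ j ≤ K ∧ ∀ k, ‖v i k - v j k‖ < δ := by
  have hc : IsCompact (Metric.closedBall (0 : Fin ℓ → ℂ) 1) := isCompact_closedBall _ _
  obtain ⟨t, htf, hcov⟩ := Metric.totallyBounded_iff.mp hc.totallyBounded (δ / 2) (by positivity)
  refine ⟨htf.toFinset.card, fun v hv => ?_⟩
  have hmem : ∀ i, ∃ y ∈ t, v i ∈ Metric.ball y (δ / 2) := by
    intro i
    have : v i ∈ Metric.closedBall (0 : Fin ℓ → ℂ) 1 := by
      rw [mem_closedBall_zero_iff, pi_norm_le_iff_of_nonneg zero_le_one]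
      exact fun j => hv i j
    simpa using hcov this
  choose g hg1 hg2 using hmem
  have hcard : htf.toFinset.card < (range (htf.toFinset.card + 1)).card := by simp
  obtain ⟨i, hi, j, hj, hne, hij⟩ := Finset.exists_ne_map_eq_of_card_lt_of_maps_to hcard
    (f := g) (fun i _ => by simpa using hg1 i)
  have hclose : ∀ k, ‖v i k - v j k‖ < δ := by
    intro k
    have h1 := hg2 i
    have h2 := hg2 j
    rw [← hij] at h2
    rw [Metric.mem_ball] at h1 h2
    have h3 : dist (v i) (v j) < δ := by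
      calc dist (v i) (v j) ≤ dist (v i) (g i) + dist (v j) (g i) := dist_triangle_right _ _ _
        _ < δ / 2 + δ / 2 := add_lt_add h1 h2
        _ = δ := by ring
    calc ‖v i k - v j k‖ = dist (v i k) (v j k) := (dist_eq_norm _ _).symm
      _ ≤ dist (v i) (v j) := dist_le_pi_dist _ _ _
      _ < δ := h3
  have hi' := mem_range.mp hi
  have hj' := mem_range.mp hj
  rcases lt_or_gt_of_ne hne with h | h
  · exact ⟨i, j, h, by omega, hclose⟩
  · exact ⟨j, i, h, by omega, fun k => by rw [norm_sub_rev]; exact hclose k⟩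

/-- Main statement when `d < b`. -/
theorem main_lt (a : ℕ) (ha : 0 < a) (b d : ℤ) (hbd : d < b)
    (hg : IsCoprime (gcd (a : ℤ) b) d) (hdvd : (a : ℤ) ∣ b * d)
    (ℓ : ℕ) (f : Fin ℓ → ℕ → ℂ)
    (hf : ∀ j, (∀ m n : ℕ, 0 < m → 0 < n → f j (m * n) = f j m * f j n) ∧
              (∀ n : ℕ, 0 < n → ‖f j n‖ = 1))
    (ε : ℝ) (hε : 0 < ε) (N : ℕ) :
    ∃ n : ℕ, N ≤ n ∧
      ∑ j, ‖f j (((a : ℤ) * (n : ℤ) + b).toNat) - f j (((a : ℤ) * (n : ℤ) + d).toNat)‖ < ε := by
  obtain ⟨K, hK⟩ := pigeon ℓ (ε / (ℓ + 1)) (by positivity)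
  obtain ⟨X, hX1, hX2⟩ := seq a b d (by exact_mod_cast ha) hbd hg hdvd N K
  obtain ⟨i, j, hij, hj, hclose⟩ := hK (fun i k => if i ≤ K then f k (X i).toNat else 0) (by
    intro i k
    by_cases hi : i ≤ K
    · simp only [hi, if_true]
      have := hX1 i hi
      rw [(hf k).2 _ (by omega)]
    · simp [hi])
  obtain ⟨hpos, n, hn, h1, h2⟩ := hX2 i j hij hj
  have hn0 : 0 ≤ n := le_trans (Int.natCast_nonneg N) hn
  lift n to ℕ using hn0
  refine ⟨n, by exact_mod_cast hn, ?_⟩
  have hXi := hX1 i (by omega)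
  have hXj := hX1 j hj
  have hh : 0 < b - d := by omega
  have hposd : 0 < (a : ℤ) * n + d := by
    have : 0 < (X j - X i) * ((a : ℤ) * n + d) := by rw [← h1]; positivity
    exact (mul_pos_iff_of_pos_left hpos).mp this
  have hposb : 0 < (a : ℤ) * n + b := by omega
  have key1 : ∀ k, ‖f k (((a : ℤ) * (n : ℤ) + b).toNat) - f k (((a : ℤ) * (n : ℤ) + d).toNat)‖
      < ε / (ℓ + 1) := by
    intro k
    obtain ⟨hmul, hnorm⟩ := hf k
    have e1 : f k (b - d).toNat * f k (X i).toNat = f k (X j - X i).toNat * f k ((a : ℤ) * n + d).toNat := by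
      rw [← hmul _ _ (by omega) (by omega), ← hmul _ _ (by omega) (by omega)]
      congr 1
      rw [← Int.toNat_mul hh.le hXi.le, ← Int.toNat_mul hpos.le hposd.le, h1]
    have e2 : f k (b - d).toNat * f k (X j).toNat = f k (X j - X i).toNat * f k ((a : ℤ) * n + b).toNat := by
      rw [← hmul _ _ (by omega) (by omega), ← hmul _ _ (by omega) (by omega)]
      congr 1
      rw [← Int.toNat_mul hh.le hXj.le, ← Int.toNat_mul hpos.le hposb.le, h2]
    have e3 : ‖f k (((a : ℤ) * (n : ℤ) + b).toNat) - f k (((a : ℤ) * (n : ℤ) + d).toNat)‖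
        = ‖f k (X i).toNat - f k (X j).toNat‖ := by
      have n1 : ‖f k (X j - X i).toNat‖ = 1 := hnorm _ (by omega)
      have n2 : ‖f k (b - d).toNat‖ = 1 := hnorm _ (by omega)
      calc ‖f k (((a : ℤ) * (n : ℤ) + b).toNat) - f k (((a : ℤ) * (n : ℤ) + d).toNat)‖
          = ‖f k (X j - X i).toNat‖ * ‖f k (((a : ℤ) * (n : ℤ) + b).toNat) - f k (((a : ℤ) * (n : ℤ) + d).toNat)‖ := by
            rw [n1, one_mul]
        _ = ‖f k (X j - X i).toNat * f k (((a : ℤ) * (n : ℤ) + b).toNat)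
              - f k (X j - X i).toNat * f k (((a : ℤ) * (n : ℤ) + d).toNat)‖ := by
            rw [← norm_mul, mul_sub]
        _ = ‖f k (b - d).toNat * f k (X j).toNat - f k (b - d).toNat * f k (X i).toNat‖ := by
            rw [e1, e2]
        _ = ‖f k (b - d).toNat‖ * ‖f k (X j).toNat - f k (X i).toNat‖ := by
            rw [← norm_mul, mul_sub]
        _ = _ := by rw [n2, one_mul, norm_sub_rev]
    rw [e3]
    have := hclose k
    simpa [show i ≤ K by omega, hj] using this
  calc ∑ k, ‖f k (((a : ℤ) * (n : ℤ) + b).toNat) - f k (((a : ℤ) * (n : ℤ) + d).toNat)‖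
      ≤ ∑ _k : Fin ℓ, ε / (ℓ + 1) := Finset.sum_le_sum (fun k _ => (key1 k).le)
    _ = ℓ * (ε / (ℓ + 1)) := by simp
    _ < ε := by
      rw [mul_div_assoc', div_lt_iff₀ (by positivity)]
      nlinarith

end Pool.Agent.H383R3.MulClose
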