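import Pool.Agent.VPF.Small
import Pool.Agent.VPF.Large
import Pool.Agent.VPK.MainMid

set_option autoImplicit false
open MeasureTheory ProbabilityTheory
open scoped ENNReal Matrix

namespace Pool.Agent.H383R3.VPAll

/-- the scalar inequality in the dimensions `3 ≤ n ≤ 29` -/
theorem scalar_mid (n m : ℕ) (h3 : 3 ≤ n) (h29 : n ≤ 29) (hm : 1 ≤ m) :
    1 ≤ ((n + m).choose n : ℝ≥0∞) *
      ∫⁻ x, (∫⁻ b in Set.Ioi (0 : ℝ), ∫⁻ a : ℝ,
        Pool.Agent.VPK.QQ (|x| / √(n : ℝ)) a b ^ m * Pool.Agent.VPK.KK n a b)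
        ∂(gaussianReal 0 1) := by
  rcases le_or_gt m 1000 with h | h
  · exact Pool.Agent.VPF.small n m h3 h29 hm h
  · exact Pool.Agent.VPF.scalar_large n m h3 h29 (by split_ifs <;> omega)

/-- The inequality for every `n ≥ 1` and every `N ≥ n`. -/
theorem main_all (n N : ℕ) (hn1 : 1 ≤ n) (hN : n ≤ N) :
      (4 : ENNReal) ^ n / (n.factorial : ENNReal) ≤
        ∫⁻ ω : Fin N → (Fin n → ℝ),
          volume (convexHull ℝ (Set.range ω ∪ Set.range (fun i => -ω i))) *
          volume {y : Fin n → ℝ | ∀ x ∈ convexHull ℝ (Set.range ω ∪ Set.range (fun i => -ω i)),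
                    ∑ j, x j * y j ≤ 1}
        ∂(Measure.pi (fun _ : Fin N => Measure.pi (fun _ : Fin n => gaussianReal 0 1))) := by
  by_cases h : n ≤ 2 ∨ 30 ≤ n
  · exact Pool.Agent.VPK.main_mid n N hn1 h hN
  · obtain ⟨m, rfl⟩ : ∃ m, N = n + m := ⟨N - n, by omega⟩
    rcases Nat.eq_zero_or_pos m with rfl | hm
    · exact Pool.Agent.VPK.main_zero n hn1
    · exact Pool.Agent.VPK.main_of_scalar n m (by omega)
        (scalar_mid n m (by omega) (by omega) hm)

end Pool.Agent.H383R3.VPAll
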